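import Pool.Agent.E8helper53.LP.Main

/-!
# The Tate conjecture for the powers of hyperplane sections
-/

open CategoryTheory AlgebraicGeometry Finset

set_option linter.unusedSectionVars false

universe u v w

namespace Pool.Agent.E8helper53.LP

open Pool.Agent.H914 Pool.Agent.H914.VarClass Pool.Agent.H914.VarClass.Obj
  Pool.Agent.H914.WeilCohomology Pool.Agent.H281R3.HT Pool.Agent.W552 Pool.Agent.TH125.Gal

variable {k : Type u} [Field k] {𝒱 : VarClass k} {ops : CycleOps 𝒱}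
  {W : WeilCohomology.{u, v} ops} {Γ : Type w} [Group Γ] {χ : Γ →* W.Kˣ}

theorem restr_eq {X Y : 𝒱.Obj} (i : Y ⟶ X) (n : ℕ) (Z : 𝒱.Obj)
    (c : W.H ((power ops X n).prod Z)) : W.map (powerMapProd ops i n Z) c =
      res W (PX := ⟨X, 0⟩) (PY := ⟨Y, 0⟩) i n Z c := by
  rw [powerMapProd, powerMap_eq]
  rfl

theorem act_res {PX PY : Polarized 𝒱} {i : PY.X ⟶ PX.X} {n : ℕ} {Z : 𝒱.Obj}
    {ρ : Γ →* (W.H PX.X ≃ₐ[W.K] W.H PX.X)} {ρ' : Γ →* (W.H PY.X ≃ₐ[W.K] W.H PY.X)}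
    {τ : Γ →* (W.H Z ≃ₐ[W.K] W.H Z)}
    {υX : Γ →* (W.H ((nest ops n fun _ => PX).X.prod Z) ≃ₐ[W.K]
      W.H ((nest ops n fun _ => PX).X.prod Z))}
    {υY : Γ →* (W.H ((nest ops n fun _ => PY).X.prod Z) ≃ₐ[W.K]
      W.H ((nest ops n fun _ => PY).X.prod Z))}
    (A : Act W χ i n Z ρ ρ' τ υX υY) (g : Γ) (c : W.H ((nest ops n fun _ => PX).X.prod Z)) :
    υY g (res W i n Z c) = res W i n Z (υX g c) := by
  rw [A.aY, A.aX, res_ten, res, map_eq_ten, ten_comp]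
  congr 2
  funext _
  apply LinearMap.ext
  intro a
  exact A.hi g a

/-- the data for the general theorem -/
theorem act_of {X Y Z : GVar W Γ} {i : Y.X ⟶ X.X} {m : ℕ} (h : NodalSection χ X Y Z i m) {n : ℕ}
    {υ : Γ →* (W.H ((power ops X.X n).prod Z.X) ≃ₐ[W.K] W.H ((power ops X.X n).prod Z.X))}
    {υ' : Γ →* (W.H ((power ops Y.X n).prod Z.X) ≃ₐ[W.K] W.H ((power ops Y.X n).prod Z.X))}
    (hX : ∀ p, Intertwines (W.map (fst (power ops X.X n) Z.X ≫ powerPrj ops X.X n p)) X.act υ)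
    (hX' : Intertwines (W.map (snd (power ops X.X n) Z.X)) Z.act υ)
    (hY : ∀ p, Intertwines (W.map (fst (power ops Y.X n) Z.X ≫ powerPrj ops Y.X n p)) Y.act υ')
    (hY' : Intertwines (W.map (snd (power ops Y.X n) Z.X)) Z.act υ') :
    Act W χ (PX := ⟨X.X, 0⟩) (PY := ⟨Y.X, 0⟩) i n Z.X X.act Y.act Z.act υ υ' where
  h := h.lefschetz
  hX := h.geomX
  hY := h.geomY
  hi := h.equivariant
  aX g c := act_eq_ten (P := ⟨X.X, 0⟩) hX hX' g c
  aY g c := act_eq_ten (P := ⟨Y.X, 0⟩) hY hY' g c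

/-- **Generation.** -/
theorem tate_mem {X Y Z A B : GVar W Γ} {i : Y.X ⟶ X.X} {n : ℕ} {f : B.X ⟶ A.X}
    {D : Set (W.H B.X)} (h : NodalSection χ X Y Z i (n + 1)) (hAB : IsPowerPair X Y Z i n A B f D)
    {j : ℕ} {c : W.H B.X} (hc : c ∈ tateClasses χ B j) :
    c ∈ Algebra.adjoin W.K (D ∪ ⋃ j, W.map f '' tateClasses χ A j) := by
  obtain ⟨υ, υ', ⟨hX, hX'⟩, ⟨hY, hY'⟩⟩ := hAB
  obtain ⟨g, hPL, hgX, hgZ, hχ⟩ := h.node
  have h1 := mem_RR (act_of h hX hX' hY hY') (fun p g x => by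
    have h2 := hX p g x
    rw [W.map_comp, W.map_comp] at h2
    exact h2) h.irreducible hPL hgX hgZ hχ (fun h' => (h.few h').1) (fun h' => (h.few h').2) hc
  refine Algebra.adjoin_mono ?_ h1
  refine Set.union_subset_union (fun x hx => hx) ?_
  rintro _ ⟨l, y, hy, rfl⟩
  exact Set.mem_iUnion.2 ⟨l, y, hy, restr_eq i n Z.X y⟩

theorem res_tate {X Y Z A B : GVar W Γ} {i : Y.X ⟶ X.X} {n : ℕ} {f : B.X ⟶ A.X}
    {D : Set (W.H B.X)} {m : ℕ} (h : NodalSection χ X Y Z i m)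
    (hAB : IsPowerPair X Y Z i n A B f D) {j : ℕ} {c : W.H A.X} (hc : c ∈ tateClasses χ A j) :
    W.map f c ∈ tateClasses χ B j := by
  obtain ⟨υ, υ', ⟨hX, hX'⟩, ⟨hY, hY'⟩⟩ := hAB
  have hA := act_of h hX hX' hY hY'
  obtain ⟨h1, Δ, hΔ, h2⟩ := hc
  refine ⟨W.map_mem _ h1, Δ, hΔ, fun g hg => ?_⟩
  have h3 := act_res hA g c
  have h4 := congrArg (res W (PX := ⟨X.X, 0⟩) (PY := ⟨Y.X, 0⟩) i n Z.X) (h2 g hg)
  have h5 := h3.trans (h4.trans (map_smul (res W (PX := ⟨X.X, 0⟩) (PY := ⟨Y.X, 0⟩) i n Z.X)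
    ((χ g : W.K) ^ j) c))
  rw [restr_eq]
  exact h5

/-- **The Tate conjecture for the powers of hyperplane sections.** -/
theorem tate_iff {X Y Z A B : GVar W Γ} {i : Y.X ⟶ X.X} {n : ℕ} {f : B.X ⟶ A.X}
    {D : Set (W.H B.X)} (h : NodalSection χ X Y Z i (n + 1))
    (hAB : IsPowerPair X Y Z i n A B f D) : TateConjecture χ B ↔
      RestrictionsAlgebraic χ A B f := by
  constructor
  · intro hT j c hc
    obtain ⟨h1, h2⟩ := res_tate h hAB hc
    exact hT j _ h1 h2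
  · intro hT j c hcj hc
    refine algSpan_gr ?_ hcj
    have h1 := tate_mem h hAB (j := j) (c := c) ⟨hcj, hc⟩
    clear hcj hc
    have hD : ∀ x ∈ D, x ∈ algSpan W B.X := by
      clear h1
      intro x hx
      obtain ⟨υ, υ', hX, hY⟩ := hAB
      obtain ⟨p, q, -, rfl⟩ := hx
      refine algSpan_map _ (alg_mem (alg_push (diag Y.X) (i := Y.X.dim) alg_one ?_))
      rw [dim_prod]
      omega
    induction h1 using Algebra.adjoin_induction with
    | mem x hx =>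
      rcases hx with hx | hx
      · exact hD x hx
      · obtain ⟨l, y, hy, rfl⟩ := Set.mem_iUnion.1 hx
        exact Submodule.span_mono (Set.subset_iUnion _ _) (hT l y hy)
    | algebraMap r =>
      rw [Algebra.algebraMap_eq_smul_one]
      exact Submodule.smul_mem _ _ algSpan_one
    | add x y _ _ hx hy => exact Submodule.add_mem _ hx hy
    | mul x y _ _ hx hy => exact algSpan_mul hx hy

theorem tate_of {X Y Z A B : GVar W Γ} {i : Y.X ⟶ X.X} {n : ℕ} {f : B.X ⟶ A.X}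
    {D : Set (W.H B.X)} (h : NodalSection χ X Y Z i (n + 1))
    (hAB : IsPowerPair X Y Z i n A B f D) (hT : TateConjecture χ A) : TateConjecture χ B := by
  rw [tate_iff h hAB]
  intro j c hc
  have h1 := hT j c hc.1 hc.2
  refine algSpan_gr (algSpan_map _ (Submodule.span_mono (Set.subset_iUnion _ j) h1))
    (W.map_mem _ hc.1)

end Pool.Agent.E8helper53.LP
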