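import Pool.Agent.E8helper53.LP.Defs

/-!
# Abbreviations
-/

open CategoryTheory AlgebraicGeometry

universe u v w

namespace Pool.Agent.E8helper53.LP

open Pool.Agent.H914 Pool.Agent.H914.VarClass Pool.Agent.H914.VarClass.Obj
  Pool.Agent.H914.WeilCohomology Pool.Agent.H281R3.HT Pool.Agent.W552 Pool.Agent.TH125.Gal

variable {k : Type u} [Field k] {𝒱 : VarClass k} {ops : CycleOps 𝒱}

/-- The vanishing cohomology of `Y`, for `i : Y ⟶ X`: the kernel of the Gysin map `i_*`. -/
abbrev vanishing (W : WeilCohomology.{u, v} ops) {X Y : 𝒱.Obj} (i : Y ⟶ X) :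
    Submodule W.K (W.H Y) :=
  LinearMap.ker (W.push i)

/-- The theorems of Lefschetz for the smooth hyperplane section `i : Y ⟶ X`. -/
abbrev IsHyperplaneSection (W : WeilCohomology.{u, v} ops) {X Y : 𝒱.Obj} (i : Y ⟶ X) :
    Prop :=
  IsLefschetz (W.gr X) (W.gr Y) X.dim Y.dim (W.map i) (W.push i)

end Pool.Agent.E8helper53.LP
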