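import Pool.Agent.TH125.Gal.Pub
import Pool.Agent.H914R2.StdDefs

/-!
# Hyperplane sections, vanishing cohomology and nodal places: definitions
-/

open CategoryTheory AlgebraicGeometry

universe u v w

namespace Pool.Agent.E8helper53.LP

open Pool.Agent.H914 Pool.Agent.H914.VarClass Pool.Agent.H914.VarClass.Obj
  Pool.Agent.H914.WeilCohomology Pool.Agent.H281R3.HT Pool.Agent.W552 Pool.Agent.TH125.Gal

section Alg

variable {K : Type*} [Field K] {A : Type*} [Ring A] [Algebra K A] {B : Type*} [Ring B]
  [Algebra K B] {C : Type*} [Ring C] [Algebra K C] {Γ : Type*} [Group Γ]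

/-- The action `ρ` on the cohomology algebra `A` of a variety of dimension `n` respects the subspaces
`gr i`, and an element `g` multiplies the orientation `tr` by `χ g ^ n` (`χ` is a character of `Γ`,
the action on the Tate twists). -/
structure IsGeomAct (χ : Γ →* Kˣ) (gr : ℕ → Submodule K A) (n : ℕ) (tr : A →ₗ[K] K)
    (ρ : Γ →* (A ≃ₐ[K] A)) : Prop where
  gr_mem : ∀ g i, ∀ a ∈ gr i, ρ g a ∈ gr i
  tr_act : ∀ g a, tr (ρ g a) = (χ g : K) ^ n * tr a

/-- The theorems of Lefschetz for a smooth hyperplane section `Y` of `X`, where `A` and `B` are the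
cohomology algebras of `X` and `Y`, the restriction is `f` and the Gysin map `p`: the dimension `dX`
of `X` is `dY + 1`, the restriction `f : H^j(X) → H^j(Y)` is injective for `j ≤ dY` and surjective for
`j < dY`, and hard Lefschetz holds for `X` and the class `p 1` of `Y`. -/
structure IsLefschetz (grA : ℕ → Submodule K A) (grB : ℕ → Submodule K B) (dX dY : ℕ)
    (f : A →ₐ[K] B) (p : B →ₗ[K] A) : Prop where
  dim_eq : dX = dY + 1
  injective : ∀ j ≤ dY, ∀ a ∈ grA j, f a = 0 → a = 0
  surjective : ∀ j < dY, ∀ b ∈ grB j, ∃ a ∈ grA j, f a = b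
  hard : HardLef grA dX (LinearMap.mulLeft K (p 1))

/-- The theorems of Lefschetz hold for `X` and its hyperplane section `Y`; the actions `ρ` and `ρ'` of
`Γ` on their cohomology respect the grading, the orientations and the restriction `f`; the vanishing
cohomology `ker p` of `Y` is irreducible under all subgroups of finite index; there is an
element of `Γ` which acts on the vanishing cohomology by a Picard-Lefschetz formula and trivially on
the cohomology of `X` and of `Z` and by `χ`; if the dimension of `Y` is even, the coefficient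
field contains only finitely many elements `ζ + ζ⁻¹`, `ζ` a root of unity, and the dimension of the
vanishing cohomology is greater than `m`. -/
structure IsNodal (χ : Γ →* Kˣ) (grA : ℕ → Submodule K A) (grB : ℕ → Submodule K B)
    (dX dY : ℕ) (trA : A →ₗ[K] K) (trB : B →ₗ[K] K) (f : A →ₐ[K] B) (p : B →ₗ[K] A)
    (ρ : Γ →* (A ≃ₐ[K] A)) (ρ' : Γ →* (B ≃ₐ[K] B)) (τ : Γ →* (C ≃ₐ[K] C)) (m : ℕ) : Prop where
  lefschetz : IsLefschetz grA grB dX dY f p
  geomX : IsGeomAct χ grA dX trA ρ
  geomY : IsGeomAct χ grB dY trB ρ'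
  equivariant : Intertwines f ρ ρ'
  irreducible : IrredAct ρ' (LinearMap.ker p)
  node : ∃ g : Γ, PLAct trB (LinearMap.ker p) ρ' g ∧ TrivAct ρ g ∧ TrivAct τ g ∧ χ g = 1
  few : Even dY → FewRoots K ∧ m < Module.finrank K (LinearMap.ker p)

/-- The Tate classes of codimension `j`: the elements of `gr (2 * j)` which are multiplied by
`χ g ^ j` by all `g` in a subgroup of finite index. -/
def tateSet (χ : Γ →* Kˣ) (gr : ℕ → Submodule K A) (ρ : Γ →* (A ≃ₐ[K] A)) (j : ℕ) : Set A :=
  {c | c ∈ gr (2 * j) ∧ ∃ Δ : Subgroup Γ, Δ.FiniteIndex ∧ ∀ g ∈ Δ, ρ g c = (χ g : K) ^ j • c}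

/-- The elements of the sets `T' j` are in the algebra generated by the elements of `D` and the images
under `f` of the elements of the sets `T j`. -/
def GeneratedBy (f : A →ₐ[K] B) (T : ℕ → Set A) (D : Set B) (T' : ℕ → Set B) : Prop :=
  ∀ j, ∀ c ∈ T' j, c ∈ Algebra.adjoin K (D ∪ ⋃ j, f '' T j)

/-- The map `f` maps the elements of `T j` to linear combinations of elements of `T' j`. -/
def MapsToSpan (f : A →ₐ[K] B) (T : ℕ → Set A) (T' : ℕ → Set B) : Prop :=
  ∀ j, ∀ c ∈ T j, f c ∈ Submodule.span K (T' j)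

/-- The action `υ` on `B` is compatible with the action `ρ` on `A` along all the maps `f a` and
with the action `τ` on `C` along the map `g`. -/
def IsJointAct {ι : Type*} (f : ι → (A →ₐ[K] B)) (g : C →ₐ[K] B) (ρ : Γ →* (A ≃ₐ[K] A))
    (τ : Γ →* (C ≃ₐ[K] C)) (υ : Γ →* (B ≃ₐ[K] B)) : Prop :=
  (∀ a, Intertwines (f a) ρ υ) ∧ Intertwines g τ υ

end Alg

variable {k : Type u} [Field k] {𝒱 : VarClass k} {ops : CycleOps 𝒱}

/-- The morphism `Y × ⋯ × Y → X × ⋯ × X` (`n + 1` factors) given by a morphism `Y ⟶ X`. -/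
noncomputable def powerMap (ops : CycleOps 𝒱) {X Y : 𝒱.Obj} (i : Y ⟶ X) :
    (n : ℕ) → (power ops Y n ⟶ power ops X n)
  | 0 => i
  | n + 1 => Obj.lift (fst Y (power ops Y n) ≫ i) (snd Y (power ops Y n) ≫ powerMap ops i n)

/-- The morphism `(Y × ⋯ × Y) × Z → (X × ⋯ × X) × Z` given by a morphism `Y ⟶ X` and the identity
of `Z`. -/
noncomputable def powerMapProd (ops : CycleOps 𝒱) {X Y : 𝒱.Obj} (i : Y ⟶ X) (n : ℕ) (Z : 𝒱.Obj) :
    (power ops Y n).prod Z ⟶ (power ops X n).prod Z :=
  Obj.lift (fst (power ops Y n) Z ≫ powerMap ops i n) (snd (power ops Y n) Z)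

/-- The set of the classes of the diagonals of pairs of different factors `Y` of
`(Y × ⋯ × Y) × Z`. -/
def diagonals (W : WeilCohomology.{u, v} ops) (Y : 𝒱.Obj) (n : ℕ) (Z : 𝒱.Obj) :
    Set (W.H ((power ops Y n).prod Z)) :=
  {x | ∃ p q, p ≠ q ∧ W.map (Obj.lift (fst (power ops Y n) Z ≫ powerPrj ops Y n p)
    (fst (power ops Y n) Z ≫ powerPrj ops Y n q)) (W.push (diag Y) 1) = x}

/-- The actions of the group `Γ` on the cohomology algebra of the variety `V`. -/
def ActOn (W : WeilCohomology.{u, v} ops) (Γ : Type w) [Group Γ] (V : 𝒱.Obj) : Type (max v w) :=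
  Γ →* (W.H V ≃ₐ[W.K] W.H V)

variable {W : WeilCohomology.{u, v} ops} {Γ : Type w} [Group Γ]

/-- `i : Y ⟶ X` is a smooth hyperplane section with a nodal place, at which `X` and `Z` have good
reduction, with irreducible vanishing cohomology (for example: `Y` is the generic
member of a Lefschetz pencil of hyperplane sections of `X`, and `X` and `Z` do not vary with the
parameter of the pencil); if the dimension of `Y` is even, the dimension of the vanishing
cohomology is greater than `m`. -/
def NodalSection (χ : Γ →* W.Kˣ) (X Y Z : GVar W Γ) (i : Y.X ⟶ X.X) (m : ℕ) : Prop :=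
  IsNodal χ (W.gr X.X) (W.gr Y.X) X.X.dim Y.X.dim (W.tr X.X) (W.tr Y.X) (W.map i) (W.push i)
    X.act Y.act Z.act m

/-- The action `υ` on the cohomology of `(X × ⋯ × X) × Z`, with `n + 1` factors `X`, is compatible
with the projections to the factors. -/
def IsProductAct (X : GVar W Γ) (n : ℕ) (Z : GVar W Γ)
    (υ : ActOn W Γ ((power ops X.X n).prod Z.X)) : Prop :=
  IsJointAct (fun p => W.map (fst (power ops X.X n) Z.X ≫ powerPrj ops X.X n p))
    (W.map (snd (power ops X.X n) Z.X)) X.act Z.act υ

/-- `A` is the product of `n + 1` copies of `X` and of `Z`, and `B` is the product of `n + 1` copies of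
`Y` and of `Z`, both with actions compatible with the projections to the factors; `f : B ⟶ A` is
the product of copies of `i` and of the identity of `Z`; and `D` is the set of the classes of the
diagonals of pairs of different factors `Y` of `B`. -/
inductive IsPowerPair (X Y Z : GVar W Γ) (i : Y.X ⟶ X.X) (n : ℕ) :
    (A B : GVar W Γ) → (B.X ⟶ A.X) → Set (W.H B.X) → Prop
  | mk (υ : ActOn W Γ ((power ops X.X n).prod Z.X)) (υ' : ActOn W Γ ((power ops Y.X n).prod Z.X)) :
      IsProductAct X n Z υ → IsProductAct Y n Z υ' →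
      IsPowerPair X Y Z i n ⟨(power ops X.X n).prod Z.X, υ⟩ ⟨(power ops Y.X n).prod Z.X, υ'⟩
        (powerMapProd ops i n Z.X) (diagonals W Y.X n Z.X)

/-- The set of the Tate classes of codimension `j`. -/
def tateClasses (χ : Γ →* W.Kˣ) (X : GVar W Γ) (j : ℕ) : Set (W.H X.X) :=
  tateSet χ (W.gr X.X) X.act j

/-- All Tate classes on `B` are in the algebra generated by the elements of `D` and the restrictions
of the Tate classes on `A` along `f`. -/
def TateGenerated (χ : Γ →* W.Kˣ) (A B : GVar W Γ) (f : B.X ⟶ A.X) (D : Set (W.H B.X)) : Prop :=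
  GeneratedBy (W.map f) (tateClasses χ A) D (tateClasses χ B)

/-- The restrictions along `f` of the Tate classes on `A` are linear combinations of classes of
algebraic cycles on `B`. -/
def RestrictionsAlgebraic (χ : Γ →* W.Kˣ) (A B : GVar W Γ) (f : B.X ⟶ A.X) : Prop :=
  MapsToSpan (W.map f) (tateClasses χ A) (algClasses W B.X)

end Pool.Agent.E8helper53.LP
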