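import Pool.Agent.E8helper53.LP.Str
import Pool.Agent.TH125.Gal.Diag

/-!
# The class of the diagonal and its vanishing part
-/

open CategoryTheory AlgebraicGeometry Finset

set_option linter.unusedSectionVars false

universe u v w

namespace Pool.Agent.E8helper53.LP

open Pool.Agent.H914 Pool.Agent.H914.VarClass Pool.Agent.H914.VarClass.Obj
  Pool.Agent.H914.WeilCohomology Pool.Agent.H281R3.HT Pool.Agent.W552 Pool.Agent.TH125.Gal

variable {k : Type u} [Field k] {𝒱 : VarClass k} {ops : CycleOps 𝒱}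
  {W : WeilCohomology.{u, v} ops} {PX PY : Polarized 𝒱} {i : PY.X ⟶ PX.X}

section diag

variable {Y : 𝒱.Obj}

theorem hD_le (j : Fin (hN W Y)) : hD W Y j ≤ 2 * Y.dim := by
  by_contra hcon
  have h1 := hE_mem W Y j
  rw [W.gr_eq_bot Y _ (by omega), Submodule.mem_bot] at h1
  exact (hE W Y).ne_zero j h1

theorem bil_proj {l m : ℕ} {b : W.H Y} (hb : b ∈ W.gr Y m) (a : W.H Y) :
    bil W Y (proj (W.isInternal Y) l a) b = if l + m = 2 * Y.dim then bil W Y a b else 0 := by
  refine gr_induction (W.isInternal Y) (p := fun a => bil W Y (proj (W.isInternal Y) l a) b =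
    if l + m = 2 * Y.dim then bil W Y a b else 0) ?_ ?_ a
  · intro j a ha
    by_cases hj : j = l
    · subst hj
      rw [proj_same _ ha]
      by_cases h : j + m = 2 * Y.dim
      · rw [if_pos h]
      · rw [if_neg h, bil_eq_zero ha hb h]
    · rw [proj_ne _ ha hj, map_zero, LinearMap.zero_apply]
      by_cases h : l + m = 2 * Y.dim
      · rw [if_pos h, bil_eq_zero ha hb (by omega)]
      · rw [if_neg h]
  · intro a a' ha ha'
    rw [map_add, map_add, map_add, LinearMap.add_apply, LinearMap.add_apply, ha, ha']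
    by_cases h : l + m = 2 * Y.dim
    · rw [if_pos h, if_pos h, if_pos h]
    · rw [if_neg h, if_neg h, if_neg h, add_zero]

theorem bil_nondeg (W : WeilCohomology.{u, v} ops) (Y : 𝒱.Obj) (x : W.H Y)
    (hx : ∀ y, bil W Y x y = 0) : x = 0 := W.nondeg x hx

theorem exists_es (W : WeilCohomology.{u, v} ops) (Y : 𝒱.Obj) :
    ∃ u : Module.Basis (Fin (hN W Y)) W.K (W.H Y),
      ∀ l j, bil W Y (u l) (hE W Y j) = if j = l then 1 else 0 :=
  exists_dual (bil_nondeg W Y) (hE W Y)

/-- the dual basis -/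
noncomputable def es (W : WeilCohomology.{u, v} ops) (Y : 𝒱.Obj) :
    Module.Basis (Fin (hN W Y)) W.K (W.H Y) := (exists_es W Y).choose

theorem es_hE (l j : Fin (hN W Y)) : bil W Y (es W Y l) (hE W Y j) = if j = l then 1 else 0 :=
  (exists_es W Y).choose_spec l j

theorem es_gr (l : Fin (hN W Y)) : es W Y l ∈ W.gr Y (2 * Y.dim - hD W Y l) := by
  have h1 : es W Y l - proj (W.isInternal Y) (2 * Y.dim - hD W Y l) (es W Y l) = 0 := by
    refine bil_nondeg W Y _ fun y => ?_
    have h2 : bil W Y (es W Y l - proj (W.isInternal Y) (2 * Y.dim - hD W Y l) (es W Y l)) = 0 := by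
      refine (hE W Y).ext fun j => ?_
      have hl := hD_le (W := W) l
      have hj := hD_le (W := W) j
      rw [map_sub, LinearMap.sub_apply, bil_proj (hE_mem W Y j), LinearMap.zero_apply]
      by_cases h : 2 * Y.dim - hD W Y l + hD W Y j = 2 * Y.dim
      · rw [if_pos h, sub_self]
      · rw [if_neg h, sub_zero, es_hE, if_neg]
        rintro rfl
        exact h (by omega)
    rw [h2, LinearMap.zero_apply]
  rw [sub_eq_zero.1 h1]
  exact proj_mem _ _ _

/-- **The Kunneth formula for the class of the diagonal.** -/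
theorem diag_eq_sum (W : WeilCohomology.{u, v} ops) (Y : 𝒱.Obj) : W.push (diag Y) 1 =
    ∑ j, W.map (fst Y Y) (hE W Y j) * W.map (snd Y Y) (es W Y j) := by
  apply W.tr_ext
  intro c
  refine W.kunneth_induction (p := fun c => W.tr (Y.prod Y) (W.push (diag Y) 1 * c) =
    W.tr (Y.prod Y) ((∑ j, W.map (fst Y Y) (hE W Y j) * W.map (snd Y Y) (es W Y j)) * c)) ?_ ?_ c
  · intro a b ha hb
    rw [mul_add, mul_add, map_add, map_add, ha, hb]
  · intro a b x hx y hy
    rw [diag_pair, Finset.sum_mul, map_sum]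
    have h1 : ∀ j, W.tr (Y.prod Y) (W.map (fst Y Y) (hE W Y j) * W.map (snd Y Y) (es W Y j) *
        (W.map (fst Y Y) x * W.map (snd Y Y) y)) =
        bil W Y (bil W Y x (hE W Y j) • es W Y j) y := by
      intro j
      have hj := hD_le (W := W) j
      have h2 : W.map (snd Y Y) (es W Y j) * W.map (fst Y Y) x =
          (-1 : W.K) ^ ((2 * Y.dim - hD W Y j) * a) •
            (W.map (fst Y Y) x * W.map (snd Y Y) (es W Y j)) :=
        W.comm (W.map_mem _ (es_gr j)) (W.map_mem _ hx)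
      rw [mul_assoc, ← mul_assoc (W.map (snd Y Y) _), h2, smul_mul_assoc, mul_smul_comm,
        mul_assoc, ← mul_assoc (W.map (fst Y Y) _), ← map_mul, ← map_mul, map_smul, W.tr_prod,
        map_smul, LinearMap.smul_apply, smul_eq_mul, smul_eq_mul, ← bil_apply, ← bil_apply]
      by_cases h : hD W Y j + a = 2 * Y.dim
      · have h3 : bil W Y (hE W Y j) x = (-1 : W.K) ^ (hD W Y j * a) * bil W Y x (hE W Y j) := by
          rw [bil_apply, W.comm (hE_mem W Y j) hx, map_smul, smul_eq_mul, bil_apply]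
        have h4 : (2 * Y.dim - hD W Y j) * a + hD W Y j * a = 2 * (Y.dim * a) := by
          rw [← add_mul, Nat.sub_add_cancel hj, mul_assoc]
        rw [h3, mul_assoc ((-1 : W.K) ^ (hD W Y j * a)), ← mul_assoc, ← pow_add, h4, pow_mul]
        norm_num
      · rw [bil_eq_zero (hE_mem W Y j) hx h, bil_eq_zero hx (hE_mem W Y j) (by omega)]
        ring
    rw [Finset.sum_congr rfl fun j _ => h1 j, ← LinearMap.sum_apply, ← map_sum,
      expand_u (B := bil W Y) (b := hE W Y) es_hE]

end diag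

section

variable {n : ℕ} {Z : 𝒱.Obj}

/-- the pull-back from a factor -/
noncomputable def fc (W : WeilCohomology.{u, v} ops) (P : Polarized 𝒱) (n : ℕ) (Z : 𝒱.Obj)
    (p : Fin (n + 1)) : W.H P.X →ₗ[W.K] W.H ((nest ops n fun _ => P).X.prod Z) :=
  (W.map (fst (nest ops n fun _ => P).X Z)).toLinearMap ∘ₗ
    (W.map (prj ops n (fun _ => P) p)).toLinearMap

theorem fc_apply (P : Polarized 𝒱) (p : Fin (n + 1)) (x : W.H P.X) : fc W P n Z p x =
    W.map (fst (nest ops n fun _ => P).X Z) (W.map (prj ops n (fun _ => P) p) x) := rfl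

/-- the products of the pull-backs from two factors -/
noncomputable def fc2 (W : WeilCohomology.{u, v} ops) (P : Polarized 𝒱) (n : ℕ) (Z : 𝒱.Obj)
    (p q : Fin (n + 1)) : W.H P.X →ₗ[W.K] W.H P.X →ₗ[W.K]
      W.H ((nest ops n fun _ => P).X.prod Z) :=
  (LinearMap.mul W.K (W.H ((nest ops n fun _ => P).X.prod Z))).compl₁₂ (fc W P n Z p)
    (fc W P n Z q)

theorem fc2_apply (P : Polarized 𝒱) (p q : Fin (n + 1)) (x y : W.H P.X) :
    fc2 W P n Z p q x y = fc W P n Z p x * fc W P n Z q y := rfl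

theorem res_fc (i : PY.X ⟶ PX.X) (p : Fin (n + 1)) (x : W.H PX.X) :
    res W i n Z (fc W PX n Z p x) = fc W PY n Z p (W.map i x) := by
  rw [res, fc_apply, fc_apply, ← W.map_comp, Obj.lift_fst, W.map_comp, ← W.map_comp (nmap ops i n),
    nmap_prj, W.map_comp (prj ops n (fun _ => PY) p)]

theorem res_fc2 (i : PY.X ⟶ PX.X) (p q : Fin (n + 1)) (x y : W.H PX.X) :
    res W i n Z (fc2 W PX n Z p q x y) = fc2 W PY n Z p q (W.map i x) (W.map i y) := by
  rw [fc2_apply, map_mul, res_fc, res_fc, fc2_apply]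

/-- the class of the diagonal of two factors -/
noncomputable def dcl (W : WeilCohomology.{u, v} ops) (P : Polarized 𝒱) (n : ℕ) (Z : 𝒱.Obj)
    (p q : Fin (n + 1)) : W.H ((nest ops n fun _ => P).X.prod Z) :=
  W.map (Obj.lift (fst (nest ops n fun _ => P).X Z ≫ prj ops n (fun _ => P) p)
    (fst (nest ops n fun _ => P).X Z ≫ prj ops n (fun _ => P) q)) (W.push (diag P.X) 1)

theorem dcl_eq (P : Polarized 𝒱) (p q : Fin (n + 1)) : dcl W P n Z p q =
    ∑ j, fc2 W P n Z p q (hE W P.X j) (es W P.X j) := by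
  rw [dcl, diag_eq_sum, map_sum]
  refine Finset.sum_congr rfl fun j _ => ?_
  rw [map_mul, ← W.map_comp, ← W.map_comp, Obj.lift_fst, Obj.lift_snd, W.map_comp, W.map_comp]
  rfl

variable (h : IsHyperplaneSection W i)

theorem pC_pC (y : W.H PY.X) : pC h (pC h y) = pC h y := map_lft_map h _

theorem pC_adj (x y : W.H PY.X) : bil W PY.X (pC h x) y = bil W PY.X x (pC h y) := by
  have h1 : bil W PY.X (pC h x) (pV h y) = 0 := map_vanishing h (pV_mem h y) _
  have h2 : bil W PY.X (pV h x) (pC h y) = 0 := vanishing_map (pV_mem h x) _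
  have h3 : ∀ z, pV h z + pC h z = z := fun z => sub_add_cancel _ _
  calc bil W PY.X (pC h x) y = bil W PY.X (pC h x) (pV h y + pC h y) := by rw [h3]
    _ = bil W PY.X (pC h x) (pC h y) := by rw [map_add, h1, zero_add]
    _ = bil W PY.X (pV h x + pC h x) (pC h y) := by
        rw [map_add, LinearMap.add_apply, h2, zero_add]
    _ = _ := by rw [h3]

/-- the class on the power of the ambient variety which lifts the non-vanishing part of the
diagonal -/
noncomputable def pitil (h : IsHyperplaneSection W i) (n : ℕ) (Z : 𝒱.Obj) (p q : Fin (n + 1)) :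
    W.H ((nest ops n fun _ => PX).X.prod Z) :=
  ∑ j, fc2 W PX n Z p q (lft h (hE W PY.X j)) (lft h (es W PY.X j))

/-- the vanishing part of the diagonal -/
noncomputable def om (s : VB W i) (n : ℕ) (Z : 𝒱.Obj) (p q : Fin (n + 1)) :
    W.H ((nest ops n fun _ => PY).X.prod Z) :=
  ∑ l, fc2 W PY n Z p q (s.b l : W.H PY.X) (s.u l : W.H PY.X)

/-- **The decomposition of the diagonal.** -/
theorem dcl_dec (s : VB W i) (p q : Fin (n + 1)) :
    dcl W PY n Z p q = om s n Z p q + res W i n Z (pitil h n Z p q) := by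
  have h3 : ∀ z, pV h z + pC h z = z := fun z => sub_add_cancel _ _
  have e1 : dcl W PY n Z p q = ∑ j, fc2 W PY n Z p q (pV h (hE W PY.X j)) (es W PY.X j) +
      ∑ j, fc2 W PY n Z p q (pC h (hE W PY.X j)) (es W PY.X j) := by
    rw [dcl_eq, ← Finset.sum_add_distrib]
    refine Finset.sum_congr rfl fun j _ => ?_
    rw [← LinearMap.add_apply, ← map_add, h3]
  have e2 : ∑ j, fc2 W PY n Z p q (pC h (hE W PY.X j)) (es W PY.X j) =
      res W i n Z (pitil h n Z p q) := by
    have h4 := dual_adj (B := bil W PY.X) (b := hE W PY.X) (u := es W PY.X) es_hE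
      (fc2 W PY n Z p q ∘ₗ pC h) (A := pC h) (A' := pC h) (fun x y => pC_adj h x y)
    rw [pitil, map_sum]
    refine Eq.trans ?_ (h4.trans ?_)
    · refine Finset.sum_congr rfl fun j _ => ?_
      rw [LinearMap.comp_apply, pC_pC]
    · refine Finset.sum_congr rfl fun j _ => ?_
      rw [res_fc2]
      rfl
  have e3 : ∑ j, fc2 W PY n Z p q (pV h (hE W PY.X j)) (es W PY.X j) = om s n Z p q := by
    have h4 : ∀ j, fc2 W PY n Z p q (pV h (hE W PY.X j)) (es W PY.X j) =
        ∑ l, fc2 W PY n Z p q (s.b l : W.H PY.X)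
          (bil W PY.X (s.u l) (hE W PY.X j) • es W PY.X j) := by
      intro j
      rw [← pV_expand h s, map_sum, LinearMap.sum_apply]
      refine Finset.sum_congr rfl fun l _ => ?_
      rw [map_smul, LinearMap.smul_apply, map_smul]
    rw [Finset.sum_congr rfl fun j _ => h4 j, Finset.sum_comm, om]
    refine Finset.sum_congr rfl fun l _ => ?_
    rw [← map_sum, expand_u (B := bil W PY.X) (b := hE W PY.X) es_hE]
  rw [e1, e2, e3]

theorem pitil_gr (p q : Fin (n + 1)) : pitil h n Z p q ∈ W.gr _ (2 * PY.X.dim) := by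
  rw [pitil]
  refine Submodule.sum_mem _ fun j _ => ?_
  have h1 := W.mul_mem (W.map_mem (fst (nest ops n fun _ => PX).X Z)
    (W.map_mem (prj ops n (fun _ => PX) p) (lft_gr h (hE_mem W PY.X j))))
    (W.map_mem (fst (nest ops n fun _ => PX).X Z)
      (W.map_mem (prj ops n (fun _ => PX) q) (lft_gr h (es_gr (W := W) j))))
  have h2 := hD_le (W := W) j
  rwa [show hD W PY.X j + (2 * PY.X.dim - hD W PY.X j) = 2 * PY.X.dim by omega] at h1

theorem pitil_act {Γ : Type w} [Group Γ] {χ : Γ →* W.Kˣ}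
    {ρ : Γ →* (W.H PX.X ≃ₐ[W.K] W.H PX.X)} {ρ' : Γ →* (W.H PY.X ≃ₐ[W.K] W.H PY.X)}
    {υX : Γ →* (W.H ((nest ops n fun _ => PX).X.prod Z) ≃ₐ[W.K]
      W.H ((nest ops n fun _ => PX).X.prod Z))}
    (hX : IsGeomAct χ (W.gr PX.X) PX.X.dim (W.tr PX.X) ρ)
    (hY : IsGeomAct χ (W.gr PY.X) PY.X.dim (W.tr PY.X) ρ')
    (hi : Intertwines (W.map i) ρ ρ')
    (bX : ∀ p g x, υX g (fc W PX n Z p x) = fc W PX n Z p (ρ g x)) (p q : Fin (n + 1)) (g : Γ) :
    υX g (pitil h n Z p q) = (χ g : W.K) ^ PY.X.dim • pitil h n Z p q := by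
  have h1 := dual_inv (B := bil W PY.X) (b := hE W PY.X) (u := es W PY.X) es_hE
    ((fc2 W PX n Z p q).compl₁₂ (lft h) (lft h)) (f := (ρ' g).toLinearMap) (ρ' g).surjective
    (μ := (χ g : W.K) ^ PY.X.dim) (fun x y => by
      rw [bil_apply, AlgEquiv.toLinearMap_apply, AlgEquiv.toLinearMap_apply, ← map_mul,
        hY.tr_act, bil_apply])
  rw [pitil, map_sum]
  refine Eq.trans ?_ h1
  refine Finset.sum_congr rfl fun j _ => ?_
  rw [LinearMap.compl₁₂_apply, AlgEquiv.toLinearMap_apply, AlgEquiv.toLinearMap_apply,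
    act_lft h hX hY hi, act_lft h hX hY hi, fc2_apply, fc2_apply, map_mul, bX, bX]

end

end Pool.Agent.E8helper53.LP
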