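import Mathlib

/-!
# Dual bases and canonical tensors
-/

open Finset

set_option linter.unusedSectionVars false

namespace Pool.Agent.E8helper53.LP

universe u v w

variable {K : Type u} [Field K] {T : Type v} [AddCommGroup T] [Module K T] [Module.Finite K T]
  {M : Type w} [AddCommGroup M] [Module K M]

theorem exists_dual {B : T →ₗ[K] T →ₗ[K] K} (hnd : ∀ x, (∀ y, B x y = 0) → x = 0) {J : Type}
    [Fintype J] [DecidableEq J] (b : Module.Basis J K T) :
    ∃ u : Module.Basis J K T, ∀ i j, B (u i) (b j) = if j = i then 1 else 0 := by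
  have hT : LinearMap.BilinForm.Nondegenerate B := by
    refine ⟨hnd, ?_⟩
    have h2 : Function.Injective B :=
      (injective_iff_map_eq_zero _).2 fun a ha => hnd a fun b => by rw [ha]; rfl
    intro a ha
    by_contra ha0
    have h3 : Function.Surjective B :=
      (LinearMap.injective_iff_surjective_of_finrank_eq_finrank
        (Subspace.dual_finrank_eq).symm).1 h2
    obtain ⟨φ, hφ⟩ : ∃ φ : Module.Dual K T, φ a ≠ 0 := by
      by_contra hcon
      push Not at hcon
      exact ha0 ((Module.forall_dual_apply_eq_zero_iff K a).1 hcon)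
    obtain ⟨b, rfl⟩ := h3 φ
    exact hφ (ha b)
  exact ⟨LinearMap.BilinForm.dualBasis _ hT b, fun i j =>
    LinearMap.BilinForm.apply_dualBasis_left hT b i j⟩

variable {B : T →ₗ[K] T →ₗ[K] K} {J : Type} [Fintype J] [DecidableEq J] {b u : Module.Basis J K T}

theorem expand_b (hub : ∀ i j, B (u i) (b j) = if j = i then 1 else 0) (x : T) :
    ∑ i, B (u i) x • b i = x := by
  conv_rhs => rw [← b.sum_repr x]
  refine Finset.sum_congr rfl fun i _ => ?_
  congr 1
  conv_lhs => rw [← b.sum_repr x]
  rw [map_sum, Finset.sum_eq_single i]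
  · rw [map_smul, hub, if_pos rfl, smul_eq_mul, mul_one]
  · intro j _ hj
    rw [map_smul, hub, if_neg hj, smul_zero]
  · intro h
    exact absurd (Finset.mem_univ _) h

theorem expand_u (hub : ∀ i j, B (u i) (b j) = if j = i then 1 else 0) (x : T) :
    ∑ i, B x (b i) • u i = x := by
  conv_rhs => rw [← u.sum_repr x]
  refine Finset.sum_congr rfl fun i _ => ?_
  congr 1
  conv_lhs => rw [← u.sum_repr x]
  rw [map_sum, LinearMap.sum_apply, Finset.sum_eq_single i]
  · rw [map_smul, LinearMap.smul_apply, hub, if_pos rfl, smul_eq_mul, mul_one]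
  · intro j _ hj
    rw [map_smul, LinearMap.smul_apply, hub, if_neg (Ne.symm hj), smul_zero]
  · intro h
    exact absurd (Finset.mem_univ _) h

/-- The canonical tensor and adjoint operators. -/
theorem dual_adj (hub : ∀ i j, B (u i) (b j) = if j = i then 1 else 0) (Φ : T →ₗ[K] T →ₗ[K] M)
    {A A' : T →ₗ[K] T} (hA : ∀ x y, B (A' x) y = B x (A y)) :
    ∑ i, Φ (A (b i)) (u i) = ∑ i, Φ (b i) (A' (u i)) := by
  have h1 : ∀ i, Φ (A (b i)) (u i) = ∑ j, B (u j) (A (b i)) • Φ (b j) (u i) := by
    intro i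
    conv_lhs => rw [← expand_b hub (A (b i))]
    rw [map_sum, LinearMap.sum_apply]
    refine Finset.sum_congr rfl fun j _ => ?_
    rw [map_smul, LinearMap.smul_apply]
  have h2 : ∀ j, Φ (b j) (A' (u j)) = ∑ i, B (u j) (A (b i)) • Φ (b j) (u i) := by
    intro j
    conv_lhs => rw [← expand_u hub (A' (u j))]
    rw [map_sum]
    refine Finset.sum_congr rfl fun i _ => ?_
    rw [map_smul, hA]
  rw [Finset.sum_congr rfl fun i _ => h1 i, Finset.sum_comm]
  exact Finset.sum_congr rfl fun j _ => (h2 j).symm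

/-- The canonical tensor and similitudes. -/
theorem dual_inv (hub : ∀ i j, B (u i) (b j) = if j = i then 1 else 0) (Φ : T →ₗ[K] T →ₗ[K] M)
    {f : T →ₗ[K] T} (hf : Function.Surjective f) {μ : K} (hB : ∀ x y, B (f x) (f y) = μ * B x y) :
    ∑ i, Φ (f (b i)) (f (u i)) = μ • ∑ i, Φ (b i) (u i) := by
  have h1 : ∀ i, Φ (f (b i)) (f (u i)) = ∑ j, Φ (B (f (u i)) (b j) • f (b i)) (u j) := by
    intro i
    conv_lhs => rw [← expand_u hub (f (u i))]
    rw [map_sum]
    refine Finset.sum_congr rfl fun j _ => ?_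
    rw [map_smul, map_smul, LinearMap.smul_apply]
  have h2 : ∀ j, ∑ i, B (f (u i)) (b j) • f (b i) = μ • b j := by
    intro j
    obtain ⟨x, hx⟩ := hf (b j)
    rw [← hx]
    have h3 : ∀ i, B (f (u i)) (f x) • f (b i) = μ • f (B (u i) x • b i) := by
      intro i
      rw [hB, map_smul, smul_smul]
    rw [Finset.sum_congr rfl fun i _ => h3 i, ← Finset.smul_sum, ← map_sum, expand_b hub]
  rw [Finset.sum_congr rfl fun i _ => h1 i, Finset.sum_comm, Finset.smul_sum]
  refine Finset.sum_congr rfl fun j _ => ?_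
  rw [← LinearMap.sum_apply, ← map_sum, h2, map_smul, LinearMap.smul_apply]

end Pool.Agent.E8helper53.LP
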