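import Pool.Agent.TH125.Gal.Blk

/-!
# The structure of equivariant multilinear maps

An equivariant multilinear map is a combination of products of values of the form on pairs of variables,
with coefficients which satisfy all the linear equations that the values satisfy.
-/

open Finset Function

set_option linter.unusedSectionVars false

namespace Pool.Agent.E8helper53.LP

open Pool.Agent.TH125 Pool.Agent.TH125.Gal

universe u v w x

variable {K : Type u} [Field K] {T : Type v} [AddCommGroup T] [Module K T]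
  {E : Type w} [AddCommGroup E] [Module K E] {S : Type} [Fintype S] [DecidableEq S]

/-- the product of the values of the form on pairs of variables -/
def pf (B : T →ₗ[K] T →ₗ[K] K) {m : ℕ} (e : Fin m × Fin 2 ≃ S) (v : S → T) : K :=
  ∏ l, B (v (e (l, 0))) (v (e (l, 1)))

theorem pf_update (B : T →ₗ[K] T →ₗ[K] K) {m : ℕ} (e : Fin m × Fin 2 ≃ S) (v : S → T) (s : S) :
    ∃ φ : T →ₗ[K] K, ∀ x, pf B e (update v s x) = φ x := by
  obtain ⟨⟨l, j⟩, rfl⟩ := e.surjective s
  have hne : ∀ l' j', l' ≠ l → ∀ x, update v (e (l, j)) x (e (l', j')) = v (e (l', j')) := by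
    intro l' j' hl x
    refine update_of_ne ?_ _ _
    intro h
    exact hl (Prod.mk.inj (e.injective h)).1
  have hrest : ∀ x, ∏ l' ∈ univ.erase l, B (update v (e (l, j)) x (e (l', 0)))
      (update v (e (l, j)) x (e (l', 1))) = ∏ l' ∈ univ.erase l, B (v (e (l', 0)))
      (v (e (l', 1))) := by
    intro x
    refine Finset.prod_congr rfl fun l' hl' => ?_
    rw [hne l' 0 (Finset.ne_of_mem_erase hl'), hne l' 1 (Finset.ne_of_mem_erase hl')]
  set c := ∏ l' ∈ univ.erase l, B (v (e (l', 0))) (v (e (l', 1))) with hc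
  have h01 : ∀ i j : Fin 2, i ≠ j → ∀ x, update v (e (l, i)) x (e (l, j)) = v (e (l, j)) := by
    intro i j hij x
    refine update_of_ne ?_ _ _
    intro h
    exact hij (Prod.mk.inj (e.injective h)).2.symm
  fin_cases j
  · refine ⟨c • B.flip (v (e (l, 1))), fun x => ?_⟩
    rw [pf, ← Finset.mul_prod_erase _ _ (Finset.mem_univ l)]
    have h1 := hrest x
    simp only [Fin.zero_eta, Fin.isValue] at h1 ⊢
    rw [h1, update_self, h01 0 1 (by decide), mul_comm]
    rfl
  · refine ⟨c • B (v (e (l, 0))), fun x => ?_⟩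
    rw [pf, ← Finset.mul_prod_erase _ _ (Finset.mem_univ l)]
    have h1 := hrest x
    simp only [Fin.mk_one, Fin.isValue] at h1 ⊢
    rw [h1, update_self, h01 1 0 (by decide), mul_comm]
    rfl

/-- the product of the values of the form on pairs of variables, as a multilinear map -/
def pfML (B : T →ₗ[K] T →ₗ[K] K) {m : ℕ} (e : Fin m × Fin 2 ≃ S) :
    MultilinearMap K (fun _ : S => T) K :=
  MultilinearMap.mk' (pf B e)
    (fun v s x y => by
      obtain ⟨φ, hφ⟩ := pf_update B e v s
      rw [hφ, hφ, hφ, map_add])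
    (fun v s c x => by
      obtain ⟨φ, hφ⟩ := pf_update B e v s
      rw [hφ, hφ, map_smul])

theorem pfML_apply (B : T →ₗ[K] T →ₗ[K] K) {m : ℕ} (e : Fin m × Fin 2 ≃ S) (v : S → T) :
    pfML B e v = pf B e v := rfl

/-- **The structure of a multilinear map with coordinates in `Gen`.** -/
theorem exists_struct {B : T →ₗ[K] T →ₗ[K] K} {h : MultilinearMap K (fun _ : S => T) E} {J : Type}
    [Fintype J] [DecidableEq J] (t : Module.Basis J K T)
    (hg : (fun r : S → J => h fun j => t (r j)) ∈ Nod.Gen (fun _ : J => ())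
      (Matrix.of fun i j => B (t i) (t j)) (fun _ : S => ())) :
    ∃ (m : ℕ) (κ : Type) (_ : Fintype κ) (e : κ → (Fin m × Fin 2 ≃ S)) (w : κ → E),
      (∀ v, h v = ∑ i, pf B (e i) v • w i) ∧ LinearIndependent K fun i => pf B (e i) := by
  classical
  set m := Fintype.card S / 2 with hm
  -- all elements of `Gen`
  have h1 : ∀ F ∈ Nod.Gen (M := E) (fun _ : J => ()) (Matrix.of fun i j => B (t i) (t j))
      (fun _ : S => ()), ∃ w : (Fin m × Fin 2 ≃ S) → E, ∀ r,
        F r = ∑ e, pf B e (fun j => t (r j)) • w e := by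
    intro F hF
    induction hF using Submodule.span_induction with
    | mem F hF =>
      obtain ⟨m', e, w, rfl⟩ := hF
      have hm' : m' = m := by
        have h2 := Fintype.card_congr e
        rw [Fintype.card_prod, Fintype.card_fin, Fintype.card_fin] at h2
        omega
      clear_value m
      subst hm'
      refine ⟨fun e' => if e' = e then w else 0, fun r => ?_⟩
      rw [Finset.sum_eq_single e]
      · beta_reduce
        rw [if_pos rfl, Nod.gen, if_pos (fun _ => rfl)]
        rfl
      · intro e' _ he'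
        beta_reduce
        rw [if_neg he', smul_zero]
      · intro h
        exact absurd (Finset.mem_univ _) h
    | zero => exact ⟨fun _ => 0, fun r => by simp⟩
    | add F F' _ _ hF hF' =>
      obtain ⟨w, hw⟩ := hF
      obtain ⟨w', hw'⟩ := hF'
      exact ⟨fun e => w e + w' e, fun r => by
        rw [Pi.add_apply, hw, hw', ← Finset.sum_add_distrib]
        exact Finset.sum_congr rfl fun e _ => (smul_add _ _ _).symm⟩
    | smul c F _ hF =>
      obtain ⟨w, hw⟩ := hF
      exact ⟨fun e => c • w e, fun r => by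
        rw [Pi.smul_apply, hw, Finset.smul_sum]
        exact Finset.sum_congr rfl fun e _ => smul_comm _ _ _⟩
  obtain ⟨w, hw⟩ := h1 _ hg
  have h2 : ∀ v, h v = ∑ e, pf B e v • w e := by
    have h3 : h = ∑ e, (pfML B e).smulRight (w e) := by
      refine Module.Basis.ext_multilinear (fun _ => t) fun r => ?_
      rw [_root_.sum_apply]
      exact hw r
    intro v
    conv_lhs => rw [h3]
    rw [_root_.sum_apply]
    rfl
  obtain ⟨κ, a, ha, hspan, hli⟩ := exists_linearIndependent' K
    (fun e : Fin m × Fin 2 ≃ S => (pf B e : (S → T) → K))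
  haveI : Finite κ := Finite.of_injective a ha
  haveI : Fintype κ := Fintype.ofFinite κ
  have h3 : ∀ e : Fin m × Fin 2 ≃ S, ∃ c : κ → K, ∑ i, c i • (pf B (a i) : (S → T) → K) =
      pf B e := by
    intro e
    have h4 : (pf B e : (S → T) → K) ∈ Submodule.span K (Set.range
        ((fun e : Fin m × Fin 2 ≃ S => (pf B e : (S → T) → K)) ∘ a)) := by
      rw [hspan]
      exact Submodule.subset_span ⟨e, rfl⟩
    exact (Submodule.mem_span_range_iff_exists_fun K).1 h4
  choose c hc using h3
  refine ⟨m, κ, inferInstance, a, fun i => ∑ e, c e i • w e, fun v => ?_, hli⟩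
  rw [h2]
  have h4 : ∀ e, pf B e v • w e = ∑ i, pf B (a i) v • c e i • w e := by
    intro e
    have h5 := congrFun (hc e) v
    rw [Finset.sum_apply] at h5
    rw [← h5, Finset.sum_smul]
    refine Finset.sum_congr rfl fun i _ => ?_
    rw [Pi.smul_apply, smul_eq_mul, mul_smul, smul_comm]
  rw [Finset.sum_congr rfl fun e _ => h4 e, Finset.sum_comm]
  refine Finset.sum_congr rfl fun i _ => ?_
  rw [Finset.smul_sum]

/-- The coefficients satisfy the linear equations that the values satisfy. -/
theorem coef_eq {B : T →ₗ[K] T →ₗ[K] K} {m : ℕ} {κ : Type} [Fintype κ]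
    {e : κ → (Fin m × Fin 2 ≃ S)} (hli : LinearIndependent K fun i => pf B (e i)) {w : κ → E}
    (h : ∀ v, ∑ i, pf B (e i) v • w i = 0) (i : κ) : w i = 0 := by
  rw [← Module.forall_dual_apply_eq_zero_iff K]
  intro f
  have h1 : ∑ i, f (w i) • (pf B (e i) : (S → T) → K) = 0 := by
    funext v
    rw [Finset.sum_apply, Pi.zero_apply, ← map_zero f, ← h v, map_sum]
    refine Finset.sum_congr rfl fun i _ => ?_
    rw [Pi.smul_apply, map_smul, smul_eq_mul, smul_eq_mul, mul_comm]
  exact Fintype.linearIndependent_iff.1 hli _ h1 i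

theorem pf_smul (B : T →ₗ[K] T →ₗ[K] K) {m : ℕ} (e : Fin m × Fin 2 ≃ S) {f : T → T} {μ : K}
    (h : ∀ x y, B (f x) (f y) = μ * B x y) (v : S → T) :
    pf B e (fun j => f (v j)) = μ ^ m * pf B e v := by
  rw [pf, pf]
  simp only [h]
  rw [Finset.prod_mul_distrib, Finset.prod_const, Finset.card_univ, Fintype.card_fin]

end Pool.Agent.E8helper53.LP
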