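import Pool.Agent.E8helper53.LP.Abb
import Pool.Agent.H914R2.GBasic
import Pool.Agent.H914R2.CPart

/-!
# The theorems of Lefschetz and the vanishing cohomology
-/

open CategoryTheory AlgebraicGeometry

universe u v w

namespace Pool.Agent.E8helper53.LP

open Pool.Agent.H914 Pool.Agent.H914.VarClass Pool.Agent.H914.VarClass.Obj
  Pool.Agent.H914.WeilCohomology Pool.Agent.H281R3.HT Pool.Agent.W552 Pool.Agent.TH125.Gal

variable {k : Type u} [Field k] {𝒱 : VarClass k} {ops : CycleOps 𝒱}
  {W : WeilCohomology.{u, v} ops} {X Y : 𝒱.Obj} {i : Y ⟶ X}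

/-- an element all of whose components vanish is zero -/
theorem eq_zero_of_proj {a : W.H X} (h : ∀ j, proj (W.isInternal X) j a = 0) : a = 0 := by
  have h1 := sum_proj (W.isInternal X) (N := 2 * X.dim + 1)
    (fun i hi => W.gr_eq_bot X i (by omega))
  have h2 := congrArg (fun F => F a) h1
  rw [LinearMap.sum_apply] at h2
  rw [Finset.sum_eq_zero fun j _ => h j] at h2
  exact h2.symm

theorem proj_proj (X : 𝒱.Obj) (j l : ℕ) (a : W.H X) :
    proj (W.isInternal X) j (proj (W.isInternal X) l a) =
      if j = l then proj (W.isInternal X) l a else 0 := by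
  by_cases h : j = l
  · subst h
    rw [if_pos rfl, proj_same _ (proj_mem _ _ _)]
  · rw [if_neg h, proj_ne _ (proj_mem _ _ _) (Ne.symm h)]

theorem map_proj (f : Y ⟶ X) (j : ℕ) (a : W.H X) :
    W.map f (proj (W.isInternal X) j a) = proj (W.isInternal Y) j (W.map f a) := by
  refine gr_induction (W.isInternal X) (p := fun a => W.map f (proj (W.isInternal X) j a) =
    proj (W.isInternal Y) j (W.map f a)) ?_ ?_ a
  · intro l a ha
    by_cases h : l = j
    · subst h
      rw [proj_same _ ha, proj_same _ (W.map_mem f ha)]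
    · rw [proj_ne _ ha h, proj_ne _ (W.map_mem f ha) h, map_zero]
  · intro a b ha hb
    rw [map_add, map_add, map_add, map_add, ha, hb]

theorem act_proj {ρ : W.H X ≃ₐ[W.K] W.H X} (hρ : ∀ j, ∀ a ∈ W.gr X j, ρ a ∈ W.gr X j) (j : ℕ)
    (a : W.H X) : ρ (proj (W.isInternal X) j a) = proj (W.isInternal X) j (ρ a) := by
  refine gr_induction (W.isInternal X) (p := fun a => ρ (proj (W.isInternal X) j a) =
    proj (W.isInternal X) j (ρ a)) ?_ ?_ a
  · intro l a ha
    by_cases h : l = j
    · subst h
      rw [proj_same _ ha, proj_same _ (hρ _ _ ha)]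
    · rw [proj_ne _ ha h, proj_ne _ (hρ _ _ ha) h, map_zero]
  · intro a b ha hb
    rw [map_add, map_add, map_add, map_add, ha, hb]

theorem lef_eq (i : Y ⟶ X) (a : W.H X) :
    LinearMap.mulLeft W.K (W.push i 1) a = W.push i (W.map i a) := by
  have h1 := W.push_mul i 1 a
  rw [one_mul] at h1
  rw [LinearMap.mulLeft_apply, h1]

theorem mem_vanishing {a : W.H Y} : a ∈ vanishing W i ↔ W.push i a = 0 := LinearMap.mem_ker

theorem vanishing_map {v : W.H Y} (hv : v ∈ vanishing W i) (a : W.H X) :
    bil W Y v (W.map i a) = 0 := by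
  rw [bil_apply, ← W.tr_push, mem_vanishing.1 hv, zero_mul, map_zero]

variable (h : IsHyperplaneSection W i)

include h in
theorem push_gr {j : ℕ} {a : W.H Y} (ha : a ∈ W.gr Y j) : W.push i a ∈ W.gr X (j + 2) := by
  have h1 := W.push_mem i ha
  have h2 : ((j : ℕ) : ℤ) + 2 * ((X.dim : ℤ) - Y.dim) = ((j + 2 : ℕ) : ℤ) := by
    rw [h.dim_eq]
    push_cast
    ring
  rwa [h2, grZ_natCast] at h1

include h in
theorem push_proj (j : ℕ) (a : W.H Y) :
    W.push i (proj (W.isInternal Y) j a) = proj (W.isInternal X) (j + 2) (W.push i a) := by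
  refine gr_induction (W.isInternal Y) (p := fun a => W.push i (proj (W.isInternal Y) j a) =
    proj (W.isInternal X) (j + 2) (W.push i a)) ?_ ?_ a
  · intro l a ha
    by_cases hl : l = j
    · subst hl
      rw [proj_same _ ha, proj_same _ (push_gr h ha)]
    · rw [proj_ne _ ha hl, proj_ne _ (push_gr h ha) (by omega), map_zero]
  · intro a b ha hb
    rw [map_add, map_add, map_add, map_add, ha, hb]

include h in
theorem vanishing_proj {v : W.H Y} (hv : v ∈ vanishing W i) (j : ℕ) :
    proj (W.isInternal Y) j v ∈ vanishing W i := by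
  rw [mem_vanishing, push_proj h, mem_vanishing.1 hv, map_zero]

include h in
/-- the operator of cup product with the class of the hyperplane section -/
theorem lef_pow_zero {j : ℕ} (hj : j ≤ X.dim) {a : W.H X} (ha : a ∈ W.gr X j) {m : ℕ}
    (hm : m ≤ X.dim - j) (h0 : (LinearMap.mulLeft W.K (W.push i 1) ^ m) a = 0) : a = 0 := by
  refine (h.hard j hj).1 a ha ?_
  obtain ⟨l, hl⟩ := Nat.exists_eq_add_of_le hm
  rw [hl, add_comm, pow_add, Module.End.mul_apply, h0, map_zero]

include h in
theorem vanishing_gr_zero {v : W.H Y} (hv : v ∈ vanishing W i) {j : ℕ} (hvj : v ∈ W.gr Y j)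
    (hj : j ≠ Y.dim) : v = 0 := by
  rcases Nat.lt_or_gt_of_ne hj with hj | hj
  · obtain ⟨a, ha, rfl⟩ := h.surjective j hj v hvj
    have h1 : LinearMap.mulLeft W.K (W.push i 1) a = 0 := by
      rw [lef_eq, mem_vanishing.1 hv]
    have hd := h.dim_eq
    rw [lef_pow_zero h (m := 1) (by omega) ha (by omega) (by rw [pow_one]; exact h1), map_zero]
  · apply W.nondeg
    intro b
    refine gr_induction (W.isInternal Y) (p := fun b => W.tr Y (v * b) = 0) ?_ ?_ b
    · intro l b hb
      by_cases hl : j + l = 2 * Y.dim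
      · obtain ⟨a, ha, rfl⟩ := h.surjective l (by omega) b hb
        exact vanishing_map hv a
      · exact W.tr_eq_zero (W.mul_mem hvj hb) hl
    · intro b b' hb hb'
      rw [mul_add, map_add, hb, hb', add_zero]

include h in
/-- **The vanishing cohomology is in the middle degree.** -/
theorem vanishing_le : vanishing W i ≤ W.gr Y Y.dim := by
  intro v hv
  have h1 : v - proj (W.isInternal Y) Y.dim v = 0 := by
    refine eq_zero_of_proj fun j => ?_
    rw [map_sub, proj_proj]
    by_cases hj : j = Y.dim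
    · subst hj
      rw [if_pos rfl, sub_self]
    · rw [if_neg hj, sub_zero]
      exact vanishing_gr_zero h (vanishing_proj h hv j) (proj_mem _ _ _) hj
  rw [sub_eq_zero.1 h1]
  exact proj_mem _ _ _

include h in
theorem map_vanishing {v : W.H Y} (hv : v ∈ vanishing W i) (a : W.H X) :
    bil W Y (W.map i a) v = 0 := by
  refine gr_induction (W.isInternal X) (p := fun a => bil W Y (W.map i a) v = 0) ?_ ?_ a
  · intro j a ha
    rw [bil_apply, W.comm (W.map_mem i ha) (vanishing_le h hv), map_smul, ← bil_apply,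
      vanishing_map hv, smul_zero]
  · intro a b ha hb
    rw [map_add, map_add, LinearMap.add_apply, ha, hb, add_zero]

include h in
/-- the image of the restriction meets the vanishing cohomology in zero -/
theorem map_eq_zero {a : W.H X} (ha : W.map i a ∈ vanishing W i) : W.map i a = 0 := by
  refine eq_zero_of_proj fun j => ?_
  rw [← map_proj]
  by_cases hj : j = Y.dim
  · subst hj
    have h1 : LinearMap.mulLeft W.K (W.push i 1) (proj (W.isInternal X) Y.dim a) = 0 := by
      rw [lef_eq, map_proj, push_proj h, mem_vanishing.1 ha, map_zero]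
    have hd := h.dim_eq
    rw [lef_pow_zero h (m := 1) (by omega) (proj_mem _ _ _) (by omega)
      (by rw [pow_one]; exact h1), map_zero]
  · refine vanishing_gr_zero h ?_ (W.map_mem i (proj_mem _ _ _)) hj
    rw [map_proj]
    exact vanishing_proj h ha j

include h in
/-- every class is the sum of a restriction and a vanishing class -/
theorem exists_dec (y : W.H Y) : ∃ x, y - W.map i x ∈ vanishing W i := by
  refine gr_induction (W.isInternal Y) (p := fun y => ∃ x, y - W.map i x ∈ vanishing W i)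
    ?_ ?_ y
  · intro j y hy
    have hd := h.dim_eq
    rcases lt_or_ge j Y.dim with hj | hj
    · obtain ⟨a, -, rfl⟩ := h.surjective j hj y hy
      exact ⟨a, by rw [sub_self]; exact Submodule.zero_mem _⟩
    · rcases le_or_gt j (2 * Y.dim) with hj' | hj'
      · have h1 := push_gr h hy
        obtain ⟨a, ha, h2⟩ := (h.hard (2 * Y.dim - j) (by omega)).2 (W.push i y) (by
          have e : 2 * X.dim - (2 * Y.dim - j) = j + 2 := by omega
          rw [e]
          exact h1)
        have e : X.dim - (2 * Y.dim - j) = (j - Y.dim) + 1 := by omega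
        rw [e, pow_succ', Module.End.mul_apply, lef_eq] at h2
        refine ⟨(LinearMap.mulLeft W.K (W.push i 1) ^ (j - Y.dim)) a, ?_⟩
        rw [mem_vanishing, map_sub, h2, sub_self]
      · rw [W.gr_eq_bot Y j hj', Submodule.mem_bot] at hy
        exact ⟨0, by rw [hy, map_zero, sub_zero]; exact Submodule.zero_mem _⟩
  · rintro a b ⟨x, hx⟩ ⟨x', hx'⟩
    refine ⟨x + x', ?_⟩
    have e : a + b - W.map i (x + x') = (a - W.map i x) + (b - W.map i x') := by
      rw [map_add]
      abel
    rw [e]
    exact Submodule.add_mem _ hx hx'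

/-- the components of the complement of the kernel of the restriction -/
noncomputable def Dj (W : WeilCohomology.{u, v} ops) (i : Y ⟶ X) (j : ℕ) :
    Submodule W.K (W.H X) :=
  if j ≤ Y.dim then W.gr X j else if j ≤ 2 * Y.dim then
    (W.gr X (2 * Y.dim - j)).map (LinearMap.mulLeft W.K (W.push i 1) ^ (j - Y.dim)) else ⊥

/-- the complement of the kernel of the restriction -/
noncomputable def DD (W : WeilCohomology.{u, v} ops) (i : Y ⟶ X) : Submodule W.K (W.H X) :=
  ⨅ j, (Dj W i j).comap (proj (W.isInternal X) j)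

theorem mem_DD {a : W.H X} : a ∈ DD W i ↔ ∀ j, proj (W.isInternal X) j a ∈ Dj W i j := by
  rw [DD, Submodule.mem_iInf]
  rfl

theorem DD_proj {a : W.H X} (ha : a ∈ DD W i) (l : ℕ) :
    proj (W.isInternal X) l a ∈ DD W i := by
  rw [mem_DD]
  intro j
  rw [proj_proj]
  by_cases hj : j = l
  · subst hj
    rw [if_pos rfl]
    exact mem_DD.1 ha j
  · rw [if_neg hj]
    exact Submodule.zero_mem _

theorem DD_of_gr {a : W.H X} {j : ℕ} (haj : a ∈ W.gr X j) (ha : a ∈ Dj W i j) : a ∈ DD W i := by
  rw [mem_DD]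
  intro l
  by_cases hl : j = l
  · subst hl
    rw [proj_same _ haj]
    exact ha
  · rw [proj_ne _ haj hl]
    exact Submodule.zero_mem _

include h in
theorem DD_inj {a : W.H X} (ha : a ∈ DD W i) (h0 : W.map i a = 0) : a = 0 := by
  refine eq_zero_of_proj fun j => ?_
  have h1 := mem_DD.1 ha j
  have h2 : W.map i (proj (W.isInternal X) j a) = 0 := by
    rw [map_proj, h0, map_zero]
  have h3 : proj (W.isInternal X) j a ∈ W.gr X j := proj_mem _ _ _
  revert h1 h2 h3
  generalize proj (W.isInternal X) j a = b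
  intro h1 h2 h3
  rw [Dj] at h1
  have hd := h.dim_eq
  by_cases hj : j ≤ Y.dim
  · exact h.injective j hj b h3 h2
  · rw [if_neg hj] at h1
    by_cases hj' : j ≤ 2 * Y.dim
    · rw [if_pos hj'] at h1
      obtain ⟨c, hc, rfl⟩ := h1
      have h4 : (LinearMap.mulLeft W.K (W.push i 1) ^ (j - Y.dim + 1)) c = 0 := by
        rw [pow_succ', Module.End.mul_apply, lef_eq, h2, map_zero]
      rw [lef_pow_zero h (by omega) hc (by omega) h4, map_zero]
    · rw [if_neg hj'] at h1
      exact (Submodule.mem_bot _).1 h1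

include h in
theorem lef_gr {j : ℕ} {a : W.H X} (ha : a ∈ W.gr X j) (m : ℕ) :
    (LinearMap.mulLeft W.K (W.push i 1) ^ m) a ∈ W.gr X (j + 2 * m) := by
  induction m with
  | zero => exact ha
  | succ m ih =>
    rw [pow_succ', Module.End.mul_apply, lef_eq]
    exact push_gr h (W.map_mem i ih)

include h in
theorem DD_surj (x : W.H X) : ∃ d ∈ DD W i, W.map i d = W.map i x := by
  refine gr_induction (W.isInternal X) (p := fun x => ∃ d ∈ DD W i, W.map i d = W.map i x)
    ?_ ?_ x
  · intro j x hx
    have hd := h.dim_eq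
    by_cases hj : j ≤ Y.dim
    · exact ⟨x, DD_of_gr hx (by rw [Dj, if_pos hj]; exact hx), rfl⟩
    · by_cases hj' : j ≤ 2 * Y.dim
      · have h1 : W.push i (W.map i x) ∈ W.gr X (j + 2) := push_gr h (W.map_mem i hx)
        obtain ⟨y, hy, h2⟩ := (h.hard (2 * Y.dim - j) (by omega)).2 (W.push i (W.map i x)) (by
          have e : 2 * X.dim - (2 * Y.dim - j) = j + 2 := by omega
          rw [e]
          exact h1)
        have e : X.dim - (2 * Y.dim - j) = (j - Y.dim) + 1 := by omega
        rw [e, pow_succ', Module.End.mul_apply, lef_eq] at h2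
        have h3 := lef_gr h hy (j - Y.dim)
        rw [show 2 * Y.dim - j + 2 * (j - Y.dim) = j by omega] at h3
        refine ⟨_, DD_of_gr h3 (by rw [Dj, if_neg hj, if_pos hj']; exact ⟨y, hy, rfl⟩), ?_⟩
        have h4 : W.map i ((LinearMap.mulLeft W.K (W.push i 1) ^ (j - Y.dim)) y - x) = 0 := by
          refine map_eq_zero h ?_
          rw [mem_vanishing, map_sub, map_sub, h2, sub_self]
        rw [map_sub] at h4
        exact sub_eq_zero.1 h4
      · have h1 := W.map_mem i hx
        rw [W.gr_eq_bot Y j (by omega), Submodule.mem_bot] at h1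
        exact ⟨0, Submodule.zero_mem _, by rw [h1, map_zero]⟩
  · rintro a b ⟨d, hd, h1⟩ ⟨d', hd', h2⟩
    exact ⟨d + d', Submodule.add_mem _ hd hd', by rw [map_add, map_add, h1, h2]⟩

include h in
theorem DD_unique {y : W.H Y} {d d' : W.H X} (hd : d ∈ DD W i) (hd' : d' ∈ DD W i)
    (h1 : y - W.map i d ∈ vanishing W i) (h2 : y - W.map i d' ∈ vanishing W i) : d = d' := by
  have h3 : W.map i (d - d') ∈ vanishing W i := by
    have h4 := Submodule.sub_mem _ h2 h1
    rw [sub_sub_sub_cancel_left] at h4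
    rwa [map_sub]
  have h4 := DD_inj h (Submodule.sub_mem _ hd hd') (map_eq_zero h h3)
  exact sub_eq_zero.1 h4

include h in
theorem exists_lift (y : W.H Y) : ∃ d ∈ DD W i, y - W.map i d ∈ vanishing W i := by
  obtain ⟨x, hx⟩ := exists_dec h y
  obtain ⟨d, hd, h1⟩ := DD_surj h x
  exact ⟨d, hd, by rw [h1]; exact hx⟩

/-- **The lift** of the non-vanishing part to the cohomology of the ambient variety. -/
noncomputable def lft (h : IsHyperplaneSection W i) : W.H Y →ₗ[W.K] W.H X where
  toFun y := (exists_lift h y).choose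
  map_add' y y' := by
    refine DD_unique h (exists_lift h (y + y')).choose_spec.1
      (Submodule.add_mem _ (exists_lift h y).choose_spec.1 (exists_lift h y').choose_spec.1)
      (exists_lift h (y + y')).choose_spec.2 ?_
    have h1 := Submodule.add_mem _ (exists_lift h y).choose_spec.2
      (exists_lift h y').choose_spec.2
    rw [map_add]
    convert h1 using 1
    abel
  map_smul' c y := by
    refine DD_unique h (exists_lift h (c • y)).choose_spec.1
      (Submodule.smul_mem _ c (exists_lift h y).choose_spec.1)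
      (exists_lift h (c • y)).choose_spec.2 ?_
    have h1 := Submodule.smul_mem _ c (exists_lift h y).choose_spec.2
    rw [RingHom.id_apply, map_smul, ← smul_sub]
    exact h1

theorem lft_mem (y : W.H Y) : lft h y ∈ DD W i := (exists_lift h y).choose_spec.1

theorem lft_spec (y : W.H Y) : y - W.map i (lft h y) ∈ vanishing W i :=
  (exists_lift h y).choose_spec.2

theorem lft_eq {y : W.H Y} {d : W.H X} (hd : d ∈ DD W i)
    (h1 : y - W.map i d ∈ vanishing W i) : lft h y = d :=
  DD_unique h (lft_mem h y) hd (lft_spec h y) h1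

theorem lft_vanishing {v : W.H Y} (hv : v ∈ vanishing W i) : lft h v = 0 :=
  lft_eq h (Submodule.zero_mem _) (by rw [map_zero, sub_zero]; exact hv)

theorem map_lft_map (x : W.H X) : W.map i (lft h (W.map i x)) = W.map i x := by
  have h1 := lft_spec h (W.map i x)
  rw [← map_sub] at h1
  have h2 := map_eq_zero h h1
  rw [map_sub] at h2
  exact (sub_eq_zero.1 h2).symm

theorem lft_gr {j : ℕ} {y : W.H Y} (hy : y ∈ W.gr Y j) : lft h y ∈ W.gr X j := by
  have h1 : lft h y = proj (W.isInternal X) j (lft h y) := by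
    refine lft_eq h (DD_proj (lft_mem h y) j) ?_
    rw [map_proj]
    have h2 := vanishing_proj h (lft_spec h y) j
    rwa [map_sub, proj_same _ hy] at h2
  rw [h1]
  exact proj_mem _ _ _

section act

variable {Γ : Type w} [Group Γ] {χ : Γ →* W.Kˣ} {ρ : Γ →* (W.H X ≃ₐ[W.K] W.H X)}
  {τ : Γ →* (W.H Y ≃ₐ[W.K] W.H Y)}

include h in
/-- the action and the Gysin map -/
theorem act_push (hX : IsGeomAct χ (W.gr X) X.dim (W.tr X) ρ)
    (hY : IsGeomAct χ (W.gr Y) Y.dim (W.tr Y) τ) (hi : Intertwines (W.map i) ρ τ) (g : Γ)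
    (a : W.H Y) : ρ g (W.push i a) = (χ g : W.K) • W.push i (τ g a) := by
  apply W.tr_ext
  intro b
  obtain ⟨b, rfl⟩ : ∃ b', ρ g b' = b := (ρ g).surjective b
  have e := hi g b
  rw [← map_mul, hX.tr_act, W.tr_push, smul_mul_assoc, map_smul, W.tr_push, ← e, ← map_mul,
    hY.tr_act, h.dim_eq, pow_succ', smul_eq_mul, mul_assoc]

include h in
theorem act_vanishing (hX : IsGeomAct χ (W.gr X) X.dim (W.tr X) ρ)
    (hY : IsGeomAct χ (W.gr Y) Y.dim (W.tr Y) τ) (hi : Intertwines (W.map i) ρ τ) (g : Γ)
    {v : W.H Y} (hv : v ∈ vanishing W i) : τ g v ∈ vanishing W i := by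
  have h1 := act_push h hX hY hi g v
  rw [mem_vanishing.1 hv, map_zero] at h1
  rw [mem_vanishing]
  exact (smul_eq_zero.1 h1.symm).resolve_left (Units.ne_zero _)

include h in
theorem act_lef (hX : IsGeomAct χ (W.gr X) X.dim (W.tr X) ρ)
    (hY : IsGeomAct χ (W.gr Y) Y.dim (W.tr Y) τ) (hi : Intertwines (W.map i) ρ τ) (g : Γ)
    (m : ℕ) (a : W.H X) : ρ g ((LinearMap.mulLeft W.K (W.push i 1) ^ m) a) =
      (LinearMap.mulLeft W.K (W.push i 1) ^ m) ((χ g : W.K) ^ m • ρ g a) := by
  induction m generalizing a with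
  | zero => rw [pow_zero, pow_zero, one_smul]; rfl
  | succ m ih =>
    rw [pow_succ, Module.End.mul_apply, ih, Module.End.mul_apply, lef_eq,
      act_push h hX hY hi, map_smul (LinearMap.mulLeft W.K (W.push i 1)), lef_eq]
    have e := hi g a
    rw [e, smul_smul, pow_succ]

include h in
theorem act_DD (hX : IsGeomAct χ (W.gr X) X.dim (W.tr X) ρ)
    (hY : IsGeomAct χ (W.gr Y) Y.dim (W.tr Y) τ) (hi : Intertwines (W.map i) ρ τ) (g : Γ)
    {a : W.H X} (ha : a ∈ DD W i) : ρ g a ∈ DD W i := by
  rw [mem_DD]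
  intro j
  rw [← act_proj (hX.gr_mem g)]
  have h1 := mem_DD.1 ha j
  revert h1
  generalize proj (W.isInternal X) j a = b
  intro h1
  rw [Dj] at h1 ⊢
  by_cases hj : j ≤ Y.dim
  · rw [if_pos hj] at h1 ⊢
    exact hX.gr_mem g j _ h1
  · rw [if_neg hj] at h1 ⊢
    by_cases hj' : j ≤ 2 * Y.dim
    · rw [if_pos hj'] at h1 ⊢
      obtain ⟨c, hc, rfl⟩ := h1
      rw [act_lef h hX hY hi]
      exact ⟨_, Submodule.smul_mem _ _ (hX.gr_mem g _ _ hc), rfl⟩
    · rw [if_neg hj'] at h1 ⊢
      rw [(Submodule.mem_bot _).1 h1, map_zero]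
      exact Submodule.zero_mem _

/-- **The lift is equivariant.** -/
theorem act_lft (hX : IsGeomAct χ (W.gr X) X.dim (W.tr X) ρ)
    (hY : IsGeomAct χ (W.gr Y) Y.dim (W.tr Y) τ) (hi : Intertwines (W.map i) ρ τ) (g : Γ)
    (y : W.H Y) : lft h (τ g y) = ρ g (lft h y) := by
  refine lft_eq h (act_DD h hX hY hi g (lft_mem h y)) ?_
  have e := hi g (lft h y)
  rw [← e, ← map_sub]
  exact act_vanishing h hX hY hi g (lft_spec h y)

end act

end Pool.Agent.E8helper53.LP
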