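import Pool.Agent.E8helper53.LP.Dg

/-!
# Tate classes on the powers of hyperplane sections
-/

open CategoryTheory AlgebraicGeometry Finset

set_option linter.unusedSectionVars false

universe u v w

namespace Pool.Agent.E8helper53.LP

open Pool.Agent.H914 Pool.Agent.H914.VarClass Pool.Agent.H914.VarClass.Obj
  Pool.Agent.H914.WeilCohomology Pool.Agent.H281R3.HT Pool.Agent.W552 Pool.Agent.TH125.Gal

variable {k : Type u} [Field k] {𝒱 : VarClass k} {ops : CycleOps 𝒱}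
  {W : WeilCohomology.{u, v} ops} {PX PY : Polarized 𝒱} {i : PY.X ⟶ PX.X}
  {Γ : Type w} [Group Γ] {χ : Γ →* W.Kˣ} {n : ℕ} {Z : 𝒱.Obj}
  {ρ : Γ →* (W.H PX.X ≃ₐ[W.K] W.H PX.X)} {ρ' : Γ →* (W.H PY.X ≃ₐ[W.K] W.H PY.X)}
  {τ : Γ →* (W.H Z ≃ₐ[W.K] W.H Z)}
  {υX : Γ →* (W.H ((nest ops n fun _ => PX).X.prod Z) ≃ₐ[W.K]
    W.H ((nest ops n fun _ => PX).X.prod Z))}
  {υY : Γ →* (W.H ((nest ops n fun _ => PY).X.prod Z) ≃ₐ[W.K]
    W.H ((nest ops n fun _ => PY).X.prod Z))}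

/-- The class is a Tate class. -/
def TC (χ : Γ →* W.Kˣ) {X : 𝒱.Obj} (υ : Γ →* (W.H X ≃ₐ[W.K] W.H X)) (j : ℕ) (c : W.H X) : Prop :=
  c ∈ W.gr X (2 * j) ∧ ∃ Δ : Subgroup Γ, Δ.FiniteIndex ∧ ∀ g ∈ Δ, υ g c = (χ g : W.K) ^ j • c

/-- The algebra generated by the classes of the diagonals and the restrictions of Tate classes. -/
noncomputable def RR (W : WeilCohomology.{u, v} ops) (χ : Γ →* W.Kˣ) (i : PY.X ⟶ PX.X) (n : ℕ) (Z : 𝒱.Obj)
    (υX : Γ →* (W.H ((nest ops n fun _ => PX).X.prod Z) ≃ₐ[W.K]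
      W.H ((nest ops n fun _ => PX).X.prod Z))) :
    Subalgebra W.K (W.H ((nest ops n fun _ => PY).X.prod Z)) :=
  Algebra.adjoin W.K ({x | ∃ p q, p ≠ q ∧ dcl W PY n Z p q = x} ∪
    {x | ∃ j c, TC χ υX j c ∧ res W i n Z c = x})

theorem dcl_mem {p q : Fin (n + 1)} (hpq : p ≠ q) : dcl W PY n Z p q ∈ RR W χ i n Z υX :=
  Algebra.subset_adjoin (Or.inl ⟨p, q, hpq, rfl⟩)

theorem res_mem {j : ℕ} {c : W.H ((nest ops n fun _ => PX).X.prod Z)} (hc : TC χ υX j c) :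
    res W i n Z c ∈ RR W χ i n Z υX :=
  Algebra.subset_adjoin (Or.inr ⟨j, c, hc, rfl⟩)

variable (A : Act W χ i n Z ρ ρ' τ υX υY)

theorem om_mem (A : Act W χ i n Z ρ ρ' τ υX υY)
    (bX : ∀ p g x, υX g (fc W PX n Z p x) = fc W PX n Z p (ρ g x)) (s : VB W i)
    {p q : Fin (n + 1)} (hpq : p ≠ q) : om s n Z p q ∈ RR W χ i n Z υX := by
  have h1 : om s n Z p q = dcl W PY n Z p q - res W i n Z (pitil A.h n Z p q) := by
    rw [dcl_dec A.h s, add_sub_cancel_right]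
  rw [h1]
  refine Subalgebra.sub_mem _ (dcl_mem hpq) (res_mem (j := PY.X.dim) ⟨pitil_gr A.h p q, ⊤,
    inferInstance, fun g _ => pitil_act A.h A.hX A.hY A.hi bX p q g⟩)

theorem omQ_eq (h : IsHyperplaneSection W i) (s : VB W i) (p q : Fin (n + 1)) :
    ∑ a : Fin 2 → Fin s.N, vform W i (s.u (a 0)) (s.u (a 1)) •
      (Eb s n Z p (Sum.inr (a 0)) * Eb s n Z q (Sum.inr (a 1))) =
      (((-1 : ℤ) ^ PY.X.dim : ℤ) : W.K) • om s n Z p q := by
  have h1 : ∑ a : Fin 2 → Fin s.N, vform W i (s.u (a 0)) (s.u (a 1)) •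
      (Eb s n Z p (Sum.inr (a 0)) * Eb s n Z q (Sum.inr (a 1))) =
      ∑ l, ∑ m, vform W i (s.u l) (s.u m) • fc2 W PY n Z p q (s.b l : W.H PY.X)
        (s.b m : W.H PY.X) := by
    have h2 := Fintype.sum_equiv (finTwoArrowEquiv (Fin s.N))
      (fun a : Fin 2 → Fin s.N => vform W i (s.u (a 0)) (s.u (a 1)) •
        (Eb s n Z p (Sum.inr (a 0)) * Eb s n Z q (Sum.inr (a 1))))
      (fun a => vform W i (s.u a.1) (s.u a.2) • fc2 W PY n Z p q (s.b a.1 : W.H PY.X)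
        (s.b a.2 : W.H PY.X))
      (fun a => rfl)
    rw [Fintype.sum_prod_type] at h2
    exact h2
  rw [h1, om, Finset.smul_sum]
  refine Finset.sum_congr rfl fun l _ => ?_
  have h2 : (s.u l : W.H PY.X) = ∑ m, ((((-1 : ℤ) ^ PY.X.dim : ℤ) : W.K) *
      vform W i (s.u l) (s.u m)) • (s.b m : W.H PY.X) := by
    have h3 := congrArg Subtype.val (expand_b s.dual (s.u l))
    rw [Submodule.coe_sum] at h3
    refine Eq.trans h3.symm ?_
    refine Finset.sum_congr rfl fun m _ => ?_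
    rw [Submodule.coe_smul, vform_symm h (s.u m) (s.u l)]
  conv_rhs => rw [h2]
  rw [map_sum, Finset.smul_sum]
  refine Finset.sum_congr rfl fun m _ => ?_
  have h3 : (((-1 : ℤ) ^ PY.X.dim : ℤ) : W.K) * (((-1 : ℤ) ^ PY.X.dim : ℤ) : W.K) = 1 := by
    rw [← Int.cast_mul, ← mul_pow]
    norm_num
  rw [map_smul, smul_smul, ← mul_assoc, h3, one_mul]

theorem omQ_mem (A : Act W χ i n Z ρ ρ' τ υX υY)
    (bX : ∀ p g x, υX g (fc W PX n Z p x) = fc W PX n Z p (ρ g x)) (s : VB W i)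
    {p q : Fin (n + 1)} (hpq : p ≠ q) :
    ∑ a : Fin 2 → Fin s.N, vform W i (s.u (a 0)) (s.u (a 1)) •
      (Eb s n Z p (Sum.inr (a 0)) * Eb s n Z q (Sum.inr (a 1))) ∈ RR W χ i n Z υX := by
  rw [omQ_eq A.h]
  exact Subalgebra.smul_mem _ (om_mem A bX s hpq) _

/-- the sums over the free positions -/
theorem sum_pf_mem (A : Act W χ i n Z ρ ρ' τ υX υY)
    (bX : ∀ p g x, υX g (fc W PX n Z p x) = fc W PX n Z p (ρ g x)) (s : VB W i)
    {f : Fin (n + 1) → Option (Fin (2 * PY.X.dim + 1))} {m : ℕ} (e : Fin m × Fin 2 ≃ Free f) :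
    ∑ r : Free f → Fin s.N, pf (vform W i) e (fun p => s.u (r p)) • MV s Z r ∈
      RR W χ i n Z υX := by
  obtain ⟨ε, hε⟩ := sum_pattern (K := W.K) (E := Eb s n Z) (dg := Sum.elim (fun _ => 0)
    fun _ => PY.X.dim) (d := PY.X.dim) (fun _ => rfl) (fun p q _ a b => by
      rcases a with a | a <;> rcases b with b | b
      · simp [Eb]
      · simp [Eb]
      · simp [Eb]
      · exact W.comm (W.map_mem _ (W.map_mem _ (vanishing_le A.h (s.b a).2)))
          (W.map_mem _ (W.map_mem _ (vanishing_le A.h (s.b b).2))))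
    e (fun l m => vform W i (s.u l) (s.u m))
  refine Eq.subst (motive := fun x => x ∈ RR W χ i n Z υX) hε.symm ?_
  refine Subalgebra.smul_mem _ (Subalgebra.mul_mem _ ?_ ?_) _
  · refine Subalgebra.list_prod_mem _ ?_
    intro x hx
    rw [List.mem_ofFn] at hx
    obtain ⟨l, rfl⟩ := hx
    refine omQ_mem A bX s ?_
    intro h1
    have h2 := (Prod.mk.inj (e.injective (Subtype.ext h1))).2
    exact absurd h2 (by decide)
  · refine Subalgebra.list_prod_mem _ ?_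
    intro x hx
    rw [List.mem_map] at hx
    obtain ⟨p, -, rfl⟩ := hx
    cases f p with
    | none => exact Subalgebra.one_mem _
    | some κ => exact Subalgebra.one_mem _

/-- **The Tate classes on the powers of hyperplane sections.** -/
theorem mem_RR (A : Act W χ i n Z ρ ρ' τ υX υY)
    (bX : ∀ p g x, υX g (fc W PX n Z p x) = fc W PX n Z p (ρ g x))
    (hirr : IrredAct ρ' (vanishing W i)) {g : Γ}
    (hPL : PLAct (W.tr PY.X) (vanishing W i) ρ' g) (hgX : TrivAct ρ g) (hgZ : TrivAct τ g)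
    (hχ : χ g = 1) (hfew : Even PY.X.dim → FewRoots W.K)
    (hn : Even PY.X.dim → n + 1 < Module.finrank W.K (vanishing W i))
    {c : W.H ((nest ops n fun _ => PY).X.prod Z)} {j : ℕ} (hc : TC χ υY j c) :
    c ∈ RR W χ i n Z υX := by
  obtain ⟨hcj, Δ, hΔ, hcΔ⟩ := hc
  obtain ⟨s⟩ := exists_VB A.h
  have h1 : c = ∑ f : Fin (n + 1) → Option (Fin (2 * PY.X.dim + 1)),
      ten (fun p => Po A.h (f p)) LinearMap.id c := by
    have h2 := (tenML (Q := PY) (LinearMap.id : W.H Z →ₗ[W.K] W.H Z) c).map_sum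
      (fun (_ : Fin (n + 1)) (o : Option (Fin (2 * PY.X.dim + 1))) => Po A.h o)
    rw [tenML_apply] at h2
    have h3 : (fun _ : Fin (n + 1) => ∑ o, Po A.h o) = fun _ => LinearMap.id := by
      funext _
      exact sum_Po A.h
    rw [h3, ten_id] at h2
    refine h2.trans ?_
    refine Finset.sum_congr rfl fun f _ => ?_
    rw [tenML_apply]
  rw [h1]
  refine Subalgebra.sum_mem _ fun f _ => ?_
  obtain ⟨ε, hε⟩ := rcn A.h s f Z
  obtain ⟨m, κ, _, e, w, hw, hli⟩ := hF_struct A s hirr hPL hgX hgZ hχ hfew hn f hΔ hcΔ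
  rw [hε]
  refine Subalgebra.smul_mem _ ?_ _
  have h2 : ∑ r : Free f → Fin s.N, MV s Z r * res W i n Z (hF A.h f c fun p => s.u (r p)) =
      ∑ t, (∑ r : Free f → Fin s.N, pf (vform W i) (e t) (fun p => s.u (r p)) • MV s Z r) *
        res W i n Z (w t) := by
    have h3 : ∀ r : Free f → Fin s.N, MV s Z r * res W i n Z (hF A.h f c fun p => s.u (r p)) =
        ∑ t, (pf (vform W i) (e t) (fun p => s.u (r p)) • MV s Z r) * res W i n Z (w t) := by
      intro r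
      rw [hw, map_sum, Finset.mul_sum]
      refine Finset.sum_congr rfl fun t _ => ?_
      rw [map_smul, mul_smul_comm, smul_mul_assoc]
    rw [Finset.sum_congr rfl fun r _ => h3 r, Finset.sum_comm]
    refine Finset.sum_congr rfl fun t _ => ?_
    rw [Finset.sum_mul]
  rw [h2]
  refine Subalgebra.sum_mem _ fun t _ => Subalgebra.mul_mem _ (sum_pf_mem A bX s (e t)) ?_
  rcases coef_tate A f hcj hcΔ hw hli t with h3 | ⟨h3, h4, h5⟩
  · rw [h3, map_zero]
    exact Subalgebra.zero_mem _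
  · exact res_mem (j := j - PY.X.dim * m) ⟨h4, Δ, hΔ, h5⟩

end Pool.Agent.E8helper53.LP
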