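import Mathlib

/-!
# Separating the factors of a product of elements which commute up to signs
-/

namespace Pool.Agent.E8helper53.LP

variable {K : Type*} [Field K] {A : Type*} [Ring A] [Algebra K A] {Λ : Type*}

/-- the elements commute up to the signs given by the degrees -/
def SgnComm (K : Type*) [Field K] {A : Type*} [Ring A] [Algebra K A] (D : Λ → ℕ) (x : Λ → A) :
    Prop :=
  ∀ p q, p ≠ q → x p * x q = (-1 : K) ^ (D p * D q) • (x q * x p)

theorem comm_sign (D : Λ → ℕ) (F : Λ → Prop) [DecidablePred F] (a : Λ) (L : List Λ)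
    (ha : a ∉ L) : ∃ ε : ℤ, ∀ x : Λ → A, SgnComm K D x →
      x a * (L.map fun p => if F p then x p else 1).prod =
        (ε : K) • ((L.map fun p => if F p then x p else 1).prod * x a) := by
  induction L with
  | nil => exact ⟨1, fun x _ => by simp⟩
  | cons b L ih =>
    obtain ⟨ε, h⟩ := ih fun h => ha (List.mem_cons_of_mem _ h)
    by_cases hb : F b
    · refine ⟨(-1) ^ (D a * D b) * ε, fun x hx => ?_⟩
      have hab : a ≠ b := by
        rintro rfl
        exact ha List.mem_cons_self
      rw [List.map_cons, List.prod_cons, if_pos hb, ← mul_assoc, hx a b hab, smul_mul_assoc,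
        mul_assoc, h x hx, mul_smul_comm, smul_smul, mul_assoc]
      push_cast
      rfl
    · refine ⟨ε, fun x hx => ?_⟩
      rw [List.map_cons, List.prod_cons, if_neg hb, one_mul, h x hx]

/-- **Separating the factors.** -/
theorem split_sign (D : Λ → ℕ) (F : Λ → Prop) [DecidablePred F] (L : List Λ) (hL : L.Nodup) :
    ∃ ε : ℤ, ∀ x : Λ → A, SgnComm K D x → (L.map x).prod = (ε : K) •
      ((L.map fun p => if F p then x p else 1).prod *
        (L.map fun p => if F p then 1 else x p).prod) := by
  induction L with
  | nil => exact ⟨1, fun x _ => by simp⟩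
  | cons a L ih =>
    obtain ⟨ε, h⟩ := ih (List.nodup_cons.1 hL).2
    by_cases ha : F a
    · refine ⟨ε, fun x hx => ?_⟩
      rw [List.map_cons, List.prod_cons, h x hx, List.map_cons, List.prod_cons, List.map_cons,
        List.prod_cons, if_pos ha, if_pos ha, one_mul, mul_smul_comm, mul_assoc]
    · obtain ⟨ε', h'⟩ := comm_sign (K := K) (A := A) D F a L (List.nodup_cons.1 hL).1
      refine ⟨ε * ε', fun x hx => ?_⟩
      rw [List.map_cons, List.prod_cons, h x hx, List.map_cons, List.prod_cons, List.map_cons,
        List.prod_cons, if_neg ha, if_neg ha, one_mul, mul_smul_comm, ← mul_assoc, h' x hx,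
        smul_mul_assoc, smul_smul, mul_assoc]
      push_cast
      rfl

end Pool.Agent.E8helper53.LP
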