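import Pool.Agent.TH125.Gal.Hml
import Pool.Agent.E8helper53.LP.Abb

/-!
# Tensor products of operators on the cohomology of powers
-/

open CategoryTheory AlgebraicGeometry Finset

set_option linter.unusedSectionVars false

universe u v w

namespace Pool.Agent.E8helper53.LP

open Pool.Agent.H914 Pool.Agent.H914.VarClass Pool.Agent.H914.VarClass.Obj
  Pool.Agent.H914.WeilCohomology Pool.Agent.H281R3.HT Pool.Agent.W552 Pool.Agent.TH125.Gal

variable {k : Type u} [Field k] {𝒱 : VarClass k} {ops : CycleOps 𝒱}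
  {W : WeilCohomology.{u, v} ops}

theorem exists_hbasis (W : WeilCohomology.{u, v} ops) (X : 𝒱.Obj) :
    ∃ (N : ℕ) (e : Module.Basis (Fin N) W.K (W.H X)) (d : Fin N → ℕ), ∀ j, e j ∈ W.gr X (d j) := by
  classical
  let b := (W.isInternal X).collectedBasis fun i => Module.finBasis W.K (W.gr X i)
  have hfin : Finite (Σ i, Fin (Module.finrank W.K (W.gr X i))) := Module.Finite.finite_basis b
  have := Fintype.ofFinite (Σ i, Fin (Module.finrank W.K (W.gr X i)))
  refine ⟨_, b.reindex (Fintype.equivFin _), fun j => ((Fintype.equivFin _).symm j).1,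
    fun j => ?_⟩
  rw [Module.Basis.reindex_apply]
  exact (W.isInternal X).collectedBasis_mem _ _

/-- the number of elements of the chosen homogeneous basis -/
noncomputable def hN (W : WeilCohomology.{u, v} ops) (X : 𝒱.Obj) : ℕ := (exists_hbasis W X).choose

/-- the chosen homogeneous basis -/
noncomputable def hE (W : WeilCohomology.{u, v} ops) (X : 𝒱.Obj) :
    Module.Basis (Fin (hN W X)) W.K (W.H X) := (exists_hbasis W X).choose_spec.choose

/-- the degrees of the chosen homogeneous basis -/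
noncomputable def hD (W : WeilCohomology.{u, v} ops) (X : 𝒱.Obj) : Fin (hN W X) → ℕ :=
  (exists_hbasis W X).choose_spec.choose_spec.choose

theorem hE_mem (W : WeilCohomology.{u, v} ops) (X : 𝒱.Obj) (j : Fin (hN W X)) :
    hE W X j ∈ W.gr X (hD W X j) := (exists_hbasis W X).choose_spec.choose_spec.choose_spec j

/-- the basis of monomials -/
noncomputable def hB (W : WeilCohomology.{u, v} ops) (P : Polarized 𝒱) (n : ℕ) :
    Module.Basis (Fin (n + 1) → Fin (hN W P.X)) W.K (W.H (nest ops n fun _ => P).X) :=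
  (exists_monoBasis P (hE W P.X) n).choose

theorem hB_apply (W : WeilCohomology.{u, v} ops) (P : Polarized 𝒱) (n : ℕ)
    (r : Fin (n + 1) → Fin (hN W P.X)) :
    hB W P n r = mono (prj ops n fun _ => P) fun p => hE W P.X (r p) :=
  (exists_monoBasis P (hE W P.X) n).choose_spec r

theorem mono_gr {X Y : 𝒱.Obj} {n : ℕ} (π : Fin n → (Y ⟶ X)) {a : Fin n → W.H X} {d : Fin n → ℕ}
    (ha : ∀ p, a p ∈ W.gr X (d p)) : mono π a ∈ W.gr Y (∑ p, d p) := by
  induction n with
  | zero =>
    rw [mono, List.ofFn_zero, List.prod_nil, Fin.sum_univ_zero]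
    exact W.one_mem Y
  | succ n ih =>
    rw [mono_succ, Fin.sum_univ_succ]
    exact W.mul_mem (W.map_mem _ (ha 0)) (ih _ fun p => ha p.succ)

theorem mono_zero {X Y : 𝒱.Obj} {n : ℕ} (π : Fin n → (Y ⟶ X)) {a : Fin n → W.H X} {p : Fin n}
    (ha : a p = 0) : mono π a = 0 :=
  (monoML (W := W) π).map_coord_zero p ha

section

variable {P : Polarized 𝒱} {n : ℕ} {Z : 𝒱.Obj}

/-- linear maps on the cohomology of a product with a power -/
theorem ten_ext_gr {M : Type*} [AddCommGroup M] [Module W.K M]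
    {F G : W.H ((nest ops n fun _ => P).X.prod Z) →ₗ[W.K] M}
    (h : ∀ (d : Fin (n + 1) → ℕ) (l : ℕ) (a : Fin (n + 1) → W.H P.X) (z : W.H Z),
      (∀ p, a p ∈ W.gr P.X (d p)) → z ∈ W.gr Z l →
      F (W.map (fst _ Z) (mono (prj ops n fun _ => P) a) * W.map (snd _ Z) z) =
        G (W.map (fst _ Z) (mono (prj ops n fun _ => P) a) * W.map (snd _ Z) z)) : F = G := by
  apply LinearMap.ext
  refine kun_ext (L := F) (L' := G) (map_add F) (map_add G) fun a z => ?_
  refine gr_induction (W.isInternal Z) (p := fun z =>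
    F (W.map (fst _ Z) a * W.map (snd _ Z) z) = G (W.map (fst _ Z) a * W.map (snd _ Z) z))
    ?_ ?_ z
  · intro l z hz
    have h1 : F ∘ₗ (LinearMap.mulRight W.K (W.map (snd _ Z) z)) ∘ₗ
        (W.map (fst (nest ops n fun _ => P).X Z)).toLinearMap =
        G ∘ₗ (LinearMap.mulRight W.K (W.map (snd _ Z) z)) ∘ₗ
        (W.map (fst (nest ops n fun _ => P).X Z)).toLinearMap := by
      refine (hB W P n).ext fun r => ?_
      change F (W.map (fst _ Z) (hB W P n r) * W.map (snd _ Z) z) =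
        G (W.map (fst _ Z) (hB W P n r) * W.map (snd _ Z) z)
      rw [hB_apply]
      exact h _ l _ z (fun p => hE_mem W P.X (r p)) hz
    exact LinearMap.congr_fun h1 a
  · intro z z' hz hz'
    rw [map_add, mul_add, map_add, map_add, hz, hz']

theorem ten_ext {M : Type*} [AddCommGroup M] [Module W.K M]
    {F G : W.H ((nest ops n fun _ => P).X.prod Z) →ₗ[W.K] M}
    (h : ∀ (a : Fin (n + 1) → W.H P.X) (z : W.H Z),
      F (W.map (fst _ Z) (mono (prj ops n fun _ => P) a) * W.map (snd _ Z) z) =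
        G (W.map (fst _ Z) (mono (prj ops n fun _ => P) a) * W.map (snd _ Z) z)) : F = G :=
  ten_ext_gr fun _ _ a z _ _ => h a z

end

section

variable {P Q R : Polarized 𝒱} {n : ℕ} {Z Z' Z'' : 𝒱.Obj}

/-- the tensor product of operators -/
noncomputable def ten (L : Fin (n + 1) → (W.H P.X →ₗ[W.K] W.H Q.X))
    (M : W.H Z →ₗ[W.K] W.H Z') : W.H ((nest ops n fun _ => P).X.prod Z) →ₗ[W.K]
      W.H ((nest ops n fun _ => Q).X.prod Z') :=
  ∑ r, (LinearMap.mulLeft W.K (W.map (fst _ Z') (mono (prj ops n fun _ => Q)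
    fun p => L p (hE W P.X (r p))))) ∘ₗ (W.map (snd _ Z')).toLinearMap ∘ₗ M ∘ₗ
      ctr ((hB W P n).coord r)

theorem ten_apply (L : Fin (n + 1) → (W.H P.X →ₗ[W.K] W.H Q.X)) (M : W.H Z →ₗ[W.K] W.H Z')
    (c : W.H ((nest ops n fun _ => P).X.prod Z)) : ten L M c =
      ∑ r, W.map (fst _ Z') (mono (prj ops n fun _ => Q) fun p => L p (hE W P.X (r p))) *
        W.map (snd _ Z') (M (ctr ((hB W P n).coord r) c)) := by
  rw [ten, LinearMap.sum_apply]
  rfl

/-- the tensor product of operators, as a multilinear map in the operators -/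
noncomputable def tenML (M : W.H Z →ₗ[W.K] W.H Z')
    (c : W.H ((nest ops n fun _ => P).X.prod Z)) :
    MultilinearMap W.K (fun _ : Fin (n + 1) => W.H P.X →ₗ[W.K] W.H Q.X)
      (W.H ((nest ops n fun _ => Q).X.prod Z')) :=
  ∑ r, ((LinearMap.mulRight W.K (W.map (snd _ Z') (M (ctr ((hB W P n).coord r) c)))) ∘ₗ
    (W.map (fst _ Z')).toLinearMap).compMultilinearMap
      ((monoML (prj ops n fun _ => Q)).compLinearMap fun p => LinearMap.applyₗ (hE W P.X (r p)))

theorem tenML_apply (L : Fin (n + 1) → (W.H P.X →ₗ[W.K] W.H Q.X)) (M : W.H Z →ₗ[W.K] W.H Z')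
    (c : W.H ((nest ops n fun _ => P).X.prod Z)) : tenML M c L = ten L M c := by
  rw [ten_apply, tenML, _root_.sum_apply]
  rfl

/-- **The tensor product of operators on monomials.** -/
theorem ten_mono (L : Fin (n + 1) → (W.H P.X →ₗ[W.K] W.H Q.X)) (M : W.H Z →ₗ[W.K] W.H Z')
    (a : Fin (n + 1) → W.H P.X) (z : W.H Z) :
    ten L M (W.map (fst _ Z) (mono (prj ops n fun _ => P) a) * W.map (snd _ Z) z) =
      W.map (fst _ Z') (mono (prj ops n fun _ => Q) fun p => L p (a p)) *
        W.map (snd _ Z') (M z) := by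
  have h1 : (ten L M ∘ₗ (LinearMap.mulRight W.K (W.map (snd _ Z) z)) ∘ₗ
      (W.map (fst (nest ops n fun _ => P).X Z)).toLinearMap).compMultilinearMap
        (monoML (prj ops n fun _ => P)) =
      ((LinearMap.mulRight W.K (W.map (snd _ Z') (M z))) ∘ₗ
        (W.map (fst (nest ops n fun _ => Q).X Z')).toLinearMap).compMultilinearMap
          ((monoML (prj ops n fun _ => Q)).compLinearMap L) := by
    refine Module.Basis.ext_multilinear (fun _ => hE W P.X) fun r => ?_
    change ten L M (W.map (fst _ Z) (mono (prj ops n fun _ => P) fun p => hE W P.X (r p)) *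
      W.map (snd _ Z) z) = W.map (fst _ Z') (mono (prj ops n fun _ => Q)
        fun p => L p (hE W P.X (r p))) * W.map (snd _ Z') (M z)
    rw [← hB_apply, ten_apply, Finset.sum_eq_single r]
    · rw [ctr_apply, Module.Basis.coord_apply, Module.Basis.repr_self, Finsupp.single_eq_same,
        one_smul]
    · intro r' _ hr
      rw [ctr_apply, Module.Basis.coord_apply, Module.Basis.repr_self,
        Finsupp.single_eq_of_ne hr, zero_smul, map_zero, map_zero, mul_zero]
    · intro h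
      exact absurd (Finset.mem_univ _) h
  exact DFunLike.congr_fun h1 a

theorem ten_comp (L' : Fin (n + 1) → (W.H Q.X →ₗ[W.K] W.H R.X)) (M' : W.H Z' →ₗ[W.K] W.H Z'')
    (L : Fin (n + 1) → (W.H P.X →ₗ[W.K] W.H Q.X)) (M : W.H Z →ₗ[W.K] W.H Z')
    (c : W.H ((nest ops n fun _ => P).X.prod Z)) :
    ten L' M' (ten L M c) = ten (fun p => L' p ∘ₗ L p) (M' ∘ₗ M) c := by
  have h1 : ten L' M' ∘ₗ ten L M = ten (fun p => L' p ∘ₗ L p) (M' ∘ₗ M) := by
    refine ten_ext fun a z => ?_
    rw [LinearMap.comp_apply, ten_mono, ten_mono, ten_mono]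
    rfl
  exact LinearMap.congr_fun h1 c

theorem ten_id (c : W.H ((nest ops n fun _ => P).X.prod Z)) :
    ten (Q := P) (fun _ => LinearMap.id) (LinearMap.id : W.H Z →ₗ[W.K] W.H Z) c = c := by
  have h1 : ten (Q := P) (n := n) (fun _ => LinearMap.id)
      (LinearMap.id : W.H Z →ₗ[W.K] W.H Z) = LinearMap.id := by
    refine ten_ext fun a z => ?_
    rw [ten_mono]
    rfl
  exact LinearMap.congr_fun h1 c

end

/-- The operator lowers the degrees by `d`. -/
def Dn {X Y : 𝒱.Obj} (L : W.H X →ₗ[W.K] W.H Y) (d : ℕ) : Prop :=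
  (∀ j, ∀ a ∈ W.gr X (j + d), L a ∈ W.gr Y j) ∧ ∀ j < d, ∀ a ∈ W.gr X j, L a = 0

theorem Dn.of_gr {X Y : 𝒱.Obj} {L : W.H X →ₗ[W.K] W.H Y} (h : ∀ j, ∀ a ∈ W.gr X j, L a ∈ W.gr Y j) :
    Dn L 0 := ⟨fun j a ha => h j a ha, fun j hj => absurd hj (Nat.not_lt_zero j)⟩

theorem Dn.comp {X Y Z : 𝒱.Obj} {L' : W.H Y →ₗ[W.K] W.H Z} {L : W.H X →ₗ[W.K] W.H Y}
    (h' : Dn L' 0) (h : Dn L 0) : Dn (L' ∘ₗ L) 0 :=
  ⟨fun j a ha => h'.1 j _ (h.1 j a ha), fun j hj => absurd hj (Nat.not_lt_zero j)⟩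

section

variable {P Q : Polarized 𝒱} {n : ℕ} {Z Z' : 𝒱.Obj}

theorem ten_mono_gr {L : Fin (n + 1) → (W.H P.X →ₗ[W.K] W.H Q.X)} {M : W.H Z →ₗ[W.K] W.H Z'}
    {d : Fin (n + 1) → ℕ} (hL : ∀ p, Dn (L p) (d p)) (hM : Dn M 0) {e : Fin (n + 1) → ℕ} {l : ℕ}
    {a : Fin (n + 1) → W.H P.X} {z : W.H Z} (ha : ∀ p, a p ∈ W.gr P.X (e p))
    (hz : z ∈ W.gr Z l) :
    ten L M (W.map (fst _ Z) (mono (prj ops n fun _ => P) a) * W.map (snd _ Z) z) = 0 ∨
      (∑ p, d p ≤ ∑ p, e p + l ∧
        ten L M (W.map (fst _ Z) (mono (prj ops n fun _ => P) a) * W.map (snd _ Z) z) ∈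
          W.gr _ (∑ p, e p + l - ∑ p, d p)) := by
  rw [ten_mono]
  by_cases h : ∃ p, e p < d p
  · left
    obtain ⟨p, hp⟩ := h
    rw [mono_zero _ ((hL p).2 _ hp _ (ha p)), map_zero, zero_mul]
  · right
    push Not at h
    have h1 : ∀ p, L p (a p) ∈ W.gr Q.X (e p - d p) := fun p =>
      (hL p).1 _ _ (by rw [Nat.sub_add_cancel (h p)]; exact ha p)
    have h2 : ∑ p, d p ≤ ∑ p, e p := Finset.sum_le_sum fun p _ => h p
    refine ⟨by omega, ?_⟩
    have h3 := W.mul_mem (W.map_mem (fst _ Z') (mono_gr (prj ops n fun _ => Q) h1))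
      (W.map_mem (snd (nest ops n fun _ => Q).X Z') (hM.1 l z hz))
    rw [Finset.sum_tsub_distrib _ fun p _ => h p] at h3
    rwa [show ∑ p, e p - ∑ p, d p + l = ∑ p, e p + l - ∑ p, d p by omega] at h3

/-- **The tensor product of operators lowers the degrees by the sum of the degrees.** -/
theorem ten_Dn {L : Fin (n + 1) → (W.H P.X →ₗ[W.K] W.H Q.X)} {M : W.H Z →ₗ[W.K] W.H Z'}
    {d : Fin (n + 1) → ℕ} (hL : ∀ p, Dn (L p) (d p)) (hM : Dn M 0) :
    Dn (ten L M) (∑ p, d p) := by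
  constructor
  · intro j c hc
    have h1 : ten L M ∘ₗ proj (W.isInternal ((nest ops n fun _ => P).X.prod Z)) (j + ∑ p, d p) =
        proj (W.isInternal ((nest ops n fun _ => Q).X.prod Z')) j ∘ₗ ten L M := by
      refine ten_ext_gr fun e l a z ha hz => ?_
      have h2 : W.map (fst _ Z) (mono (prj ops n fun _ => P) a) * W.map (snd _ Z) z ∈
          W.gr ((nest ops n fun _ => P).X.prod Z) (∑ p, e p + l) :=
        W.mul_mem (W.map_mem _ (mono_gr _ ha)) (W.map_mem _ hz)
      rw [LinearMap.comp_apply, LinearMap.comp_apply]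
      rcases ten_mono_gr hL hM ha hz with h3 | ⟨h3, h4⟩
      · by_cases h5 : ∑ p, e p + l = j + ∑ p, d p
        · rw [← h5, proj_same _ h2, h3, map_zero]
        · rw [proj_ne _ h2 h5, h3, map_zero, map_zero]
      · by_cases h5 : ∑ p, e p + l = j + ∑ p, d p
        · rw [show ∑ p, e p + l - ∑ p, d p = j by omega] at h4
          rw [← h5, proj_same _ h2, proj_same _ h4]
        · rw [proj_ne _ h2 h5, map_zero, proj_ne _ h4 (by omega)]
    have h2 := LinearMap.congr_fun h1 c
    rw [LinearMap.comp_apply, LinearMap.comp_apply, proj_same _ hc] at h2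
    rw [h2]
    exact proj_mem _ _ _
  · intro j hj c hc
    have h1 : ten L M ∘ₗ proj (W.isInternal ((nest ops n fun _ => P).X.prod Z)) j = 0 := by
      refine ten_ext_gr fun e l a z ha hz => ?_
      have h2 : W.map (fst _ Z) (mono (prj ops n fun _ => P) a) * W.map (snd _ Z) z ∈
          W.gr ((nest ops n fun _ => P).X.prod Z) (∑ p, e p + l) :=
        W.mul_mem (W.map_mem _ (mono_gr _ ha)) (W.map_mem _ hz)
      rw [LinearMap.comp_apply, LinearMap.zero_apply]
      rcases ten_mono_gr hL hM ha hz with h3 | ⟨h3, h4⟩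
      · by_cases h5 : ∑ p, e p + l = j
        · rw [← h5, proj_same _ h2, h3]
        · rw [proj_ne _ h2 h5, map_zero]
      · rw [proj_ne _ h2 (by omega), map_zero]
    have h2 := LinearMap.congr_fun h1 c
    rwa [LinearMap.comp_apply, proj_same _ hc] at h2

end

section pull

variable {P Q : Polarized 𝒱}

/-- the morphism of powers -/
noncomputable def nmap (ops : CycleOps 𝒱) {P Q : Polarized 𝒱} (i : Q.X ⟶ P.X) :
    (n : ℕ) → ((nest ops n fun _ => Q).X ⟶ (nest ops n fun _ => P).X)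
  | 0 => i
  | n + 1 => Obj.lift (fst Q.X (nest ops n fun _ => Q).X ≫ i)
      (snd Q.X (nest ops n fun _ => Q).X ≫ nmap ops i n)

theorem nmap_prj (i : Q.X ⟶ P.X) (n : ℕ) (p : Fin (n + 1)) :
    nmap ops i n ≫ prj ops n (fun _ => P) p = prj ops n (fun _ => Q) p ≫ i := by
  induction n with
  | zero =>
    have hp : p = 0 := Fin.ext (by omega)
    subst hp
    exact (Category.comp_id _).trans (Category.id_comp _).symm
  | succ n ih =>
    refine Fin.cases ?_ (fun p => ?_) p
    · exact Obj.lift_fst (fst Q.X (nest ops n fun _ => Q).X ≫ i)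
        (snd Q.X (nest ops n fun _ => Q).X ≫ nmap ops i n)
    · have h1 : nmap ops i (n + 1) ≫ prj ops (n + 1) (fun _ => P) p.succ =
          (nmap ops i (n + 1) ≫ snd P.X (nest ops n fun _ => P).X) ≫
            prj ops n (fun _ => P) p := (Category.assoc _ _ _).symm
      have h2 : nmap ops i (n + 1) ≫ snd P.X (nest ops n fun _ => P).X =
          snd Q.X (nest ops n fun _ => Q).X ≫ nmap ops i n :=
        Obj.lift_snd (fst Q.X (nest ops n fun _ => Q).X ≫ i)
          (snd Q.X (nest ops n fun _ => Q).X ≫ nmap ops i n)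
      have h3 : (prj ops (n + 1) (fun _ => Q) p.succ) ≫ i =
          (snd Q.X (nest ops n fun _ => Q).X ≫ prj ops n (fun _ => Q) p) ≫ i := rfl
      rw [h1, h2, h3]
      exact ((Category.assoc (snd Q.X (nest ops n fun _ => Q).X) (nmap ops i n)
        (prj ops n (fun _ => P) p)).trans (congrArg
          (fun f => snd Q.X (nest ops n fun _ => Q).X ≫ f) (ih p))).trans
            (Category.assoc _ _ _).symm

/-- the pull-back of monomials -/
theorem map_nmap (i : Q.X ⟶ P.X) (n : ℕ) (a : Fin (n + 1) → W.H P.X) :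
    W.map (nmap ops i n) (mono (prj ops n fun _ => P) a) =
      mono (prj ops n fun _ => Q) fun p => W.map i (a p) := by
  rw [map_mono, mono, mono]
  congr 2
  funext p
  rw [nmap_prj, W.map_comp]

/-- **The pull-back is a tensor product.** -/
theorem map_eq_ten (i : Q.X ⟶ P.X) (n : ℕ) (Z : 𝒱.Obj)
    (c : W.H ((nest ops n fun _ => P).X.prod Z)) :
    W.map (Obj.lift (fst (nest ops n fun _ => Q).X Z ≫ nmap ops i n)
      (snd (nest ops n fun _ => Q).X Z)) c =
      ten (fun _ => (W.map i).toLinearMap) LinearMap.id c := by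
  have h1 : (W.map (Obj.lift (fst (nest ops n fun _ => Q).X Z ≫ nmap ops i n)
      (snd (nest ops n fun _ => Q).X Z))).toLinearMap =
      ten (fun _ => (W.map i).toLinearMap) (LinearMap.id : W.H Z →ₗ[W.K] W.H Z) := by
    refine ten_ext fun a z => ?_
    rw [ten_mono, AlgHom.toLinearMap_apply, map_mul, ← W.map_comp, ← W.map_comp, Obj.lift_fst,
      Obj.lift_snd, W.map_comp, map_nmap]
    rfl
  exact LinearMap.congr_fun h1 c

theorem powerMap_eq {X Y : 𝒱.Obj} (i : Y ⟶ X) (n : ℕ) :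
    powerMap ops i n = nmap ops (P := ⟨X, 0⟩) (Q := ⟨Y, 0⟩) i n := by
  induction n with
  | zero => rfl
  | succ n ih =>
    change Obj.lift (fst Y (power ops Y n) ≫ i) (snd Y (power ops Y n) ≫ powerMap ops i n) =
      Obj.lift (fst Y (power ops Y n) ≫ i)
        (snd Y (power ops Y n) ≫ nmap ops (P := ⟨X, 0⟩) (Q := ⟨Y, 0⟩) i n)
    rw [ih]
    rfl

end pull

/-- **The action on a product is a tensor product.** -/
theorem act_eq_ten {Γ : Type w} [Group Γ] {P : Polarized 𝒱} {n : ℕ} {Z : 𝒱.Obj}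
    {ρ : Γ →* (W.H P.X ≃ₐ[W.K] W.H P.X)} {τ : Γ →* (W.H Z ≃ₐ[W.K] W.H Z)}
    {υ : Γ →* (W.H ((nest ops n fun _ => P).X.prod Z) ≃ₐ[W.K]
      W.H ((nest ops n fun _ => P).X.prod Z))}
    (h1 : ∀ p, Intertwines (W.map (fst (nest ops n fun _ => P).X Z ≫
      prj ops n (fun _ => P) p)) ρ υ)
    (h2 : Intertwines (W.map (snd (nest ops n fun _ => P).X Z)) τ υ) (g : Γ)
    (c : W.H ((nest ops n fun _ => P).X.prod Z)) :
    υ g c = ten (Q := P) (fun _ => (ρ g).toLinearMap) (τ g).toLinearMap c := by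
  have h3 : (υ g).toLinearMap =
      ten (Q := P) (n := n) (fun _ => (ρ g).toLinearMap) (τ g).toLinearMap := by
    refine ten_ext fun a z => ?_
    rw [ten_mono, AlgEquiv.toLinearMap_apply, map_mul]
    have h4 := h2 g z
    rw [h4, map_mono, mono, map_list_prod, List.map_ofFn, map_mono, mono]
    congr 3
    funext p
    exact h1 p g (a p)
  exact LinearMap.congr_fun h3 c

end Pool.Agent.E8helper53.LP
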