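import Pool.Agent.E8helper53.LP.Lef
import Pool.Agent.E8helper53.LP.Ten
import Pool.Agent.E8helper53.LP.Sgn
import Pool.Agent.E8helper53.LP.Dual
import Pool.Agent.TH125.Gal.Rec

/-!
# The decomposition of the classes on powers by the patterns of vanishing and non-vanishing factors
-/

open CategoryTheory AlgebraicGeometry Finset

set_option linter.unusedSectionVars false

universe u v w

namespace Pool.Agent.E8helper53.LP

open Pool.Agent.H914 Pool.Agent.H914.VarClass Pool.Agent.H914.VarClass.Obj
  Pool.Agent.H914.WeilCohomology Pool.Agent.H281R3.HT Pool.Agent.W552 Pool.Agent.TH125.Gal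

variable {k : Type u} [Field k] {𝒱 : VarClass k} {ops : CycleOps 𝒱}
  {W : WeilCohomology.{u, v} ops} {PX PY : Polarized 𝒱} {i : PY.X ⟶ PX.X}

/-- the form on the vanishing cohomology -/
noncomputable def vform (W : WeilCohomology.{u, v} ops) {X Y : 𝒱.Obj} (i : Y ⟶ X) :
    vanishing W i →ₗ[W.K] vanishing W i →ₗ[W.K] W.K :=
  (bil W Y).domRestrict₁₂ (vanishing W i) (vanishing W i)

theorem vform_apply {X Y : 𝒱.Obj} (i : Y ⟶ X) (a b : vanishing W i) :
    vform W i a b = bil W Y a b := rfl

section

variable {X Y : 𝒱.Obj} {i : Y ⟶ X} (h : IsHyperplaneSection W i)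

include h in
theorem vform_nondeg (a : vanishing W i) (ha : ∀ b, vform W i a b = 0) : a = 0 := by
  apply Subtype.ext
  apply W.nondeg
  intro b
  obtain ⟨x, hx⟩ := exists_dec h b
  have h1 : b = W.map i x + (b - W.map i x) := by abel
  rw [h1, mul_add, map_add]
  have h2 : W.tr Y ((a : W.H Y) * W.map i x) = 0 := vanishing_map a.2 x
  have h3 : W.tr Y ((a : W.H Y) * (b - W.map i x)) = 0 := ha ⟨_, hx⟩
  rw [h2, h3, add_zero]

include h in
theorem vform_symm (a b : vanishing W i) :
    vform W i a b = (((-1 : ℤ) ^ Y.dim : ℤ) : W.K) * vform W i b a := by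
  rw [vform_apply, bil_apply, W.comm (vanishing_le h a.2) (vanishing_le h b.2), map_smul,
    smul_eq_mul, vform_apply, bil_apply]
  congr 1
  push_cast
  rcases Nat.even_or_odd Y.dim with h | h
  · rw [h.neg_one_pow, (h.mul_left _).neg_one_pow]
  · rw [h.neg_one_pow, (h.mul h).neg_one_pow]

/-- the projection to the part which comes from the ambient variety -/
noncomputable def pC (h : IsHyperplaneSection W i) : W.H Y →ₗ[W.K] W.H Y :=
  (W.map i).toLinearMap ∘ₗ lft h

/-- the projection to the vanishing cohomology -/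
noncomputable def pV (h : IsHyperplaneSection W i) : W.H Y →ₗ[W.K] W.H Y :=
  LinearMap.id - pC h

theorem pC_apply (y : W.H Y) : pC h y = W.map i (lft h y) := rfl

theorem pV_apply (y : W.H Y) : pV h y = y - W.map i (lft h y) := rfl

theorem pV_mem (y : W.H Y) : pV h y ∈ vanishing W i := lft_spec h y

theorem pC_gr {j : ℕ} {y : W.H Y} (hy : y ∈ W.gr Y j) : pC h y ∈ W.gr Y j :=
  W.map_mem i (lft_gr h hy)

/-- A basis of the vanishing cohomology with the dual basis. -/
structure VB (W : WeilCohomology.{u, v} ops) {X Y : 𝒱.Obj} (i : Y ⟶ X) where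
  /-- the number of elements -/
  N : ℕ
  /-- the basis -/
  b : Module.Basis (Fin N) W.K (vanishing W i)
  /-- the dual basis -/
  u : Module.Basis (Fin N) W.K (vanishing W i)
  dual : ∀ l j, vform W i (u l) (b j) = if j = l then 1 else 0

include h in
theorem exists_VB : Nonempty (VB W i) := by
  obtain ⟨u, hu⟩ := exists_dual (B := vform W i) (vform_nondeg h)
    (Module.finBasis W.K (vanishing W i))
  exact ⟨⟨_, Module.finBasis W.K (vanishing W i), u, hu⟩⟩

/-- the projection to the vanishing cohomology in a basis -/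
theorem pV_expand (s : VB W i) (y : W.H Y) :
    ∑ l, bil W Y (s.u l) y • (s.b l : W.H Y) = pV h y := by
  have h1 := congrArg Subtype.val (expand_b s.dual ⟨pV h y, pV_mem h y⟩)
  rw [Submodule.coe_sum] at h1
  refine Eq.trans ?_ h1
  refine Finset.sum_congr rfl fun l _ => ?_
  change _ = vform W i (s.u l) ⟨pV h y, pV_mem h y⟩ • (s.b l : W.H Y)
  rw [vform_apply]
  congr 1
  change _ = bil W Y (s.u l) (pV h y)
  rw [pV_apply, map_sub, vanishing_map (s.u l).2, sub_zero]

/-- the projections -/
noncomputable def Po (h : IsHyperplaneSection W i) :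
    Option (Fin (2 * Y.dim + 1)) → (W.H Y →ₗ[W.K] W.H Y) :=
  fun o => o.elim (pV h) fun κ => proj (W.isInternal Y) κ ∘ₗ pC h

theorem sum_Po : ∑ o, Po h o = LinearMap.id := by
  rw [Fintype.sum_option]
  have h1 : ∑ κ : Fin (2 * Y.dim + 1), Po h (some κ) = pC h := by
    have h2 := sum_proj (W.isInternal Y) (N := 2 * Y.dim + 1)
      (fun i hi => W.gr_eq_bot Y i (by omega))
    rw [Finset.sum_range] at h2
    apply LinearMap.ext
    intro y
    have h3 := congrArg (fun F => F (pC h y)) h2
    rw [LinearMap.sum_apply] at h3 ⊢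
    exact h3
  rw [h1]
  change pV h + pC h = LinearMap.id
  rw [pV, sub_add_cancel]

/-- the degrees of the patterns -/
def dgo (Y : 𝒱.Obj) (o : Option (Fin (2 * Y.dim + 1))) : ℕ := o.elim Y.dim fun κ => κ

theorem Po_gr (o : Option (Fin (2 * Y.dim + 1))) (y : W.H Y) : Po h o y ∈ W.gr Y (dgo Y o) := by
  cases o with
  | none => exact vanishing_le h (pV_mem h y)
  | some κ => exact proj_mem _ _ _

/-- contraction with a class -/
noncomputable def bw (W : WeilCohomology.{u, v} ops) (X Y : 𝒱.Obj) :
    W.H Y →ₗ[W.K] (W.H Y →ₗ[W.K] W.H X) :=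
  (bil W Y).compr₂ (LinearMap.toSpanSingleton W.K (W.H X) 1)

theorem bw_apply (X : 𝒱.Obj) (a b : W.H Y) : bw W X Y a b = bil W Y a b • 1 := rfl

end

section

variable (h : IsHyperplaneSection W i) {n : ℕ}

/-- the operators at the fixed positions -/
noncomputable def fixo (h : IsHyperplaneSection W i)
    (f : Fin (n + 1) → Option (Fin (2 * PY.X.dim + 1))) (p : {p // ¬ f p = none}) :
    W.H PY.X →ₗ[W.K] W.H PX.X :=
  (f p.1).elim 0 fun κ => proj (W.isInternal PX.X) κ ∘ₗ lft h

/-- the operators at all positions -/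
noncomputable def Lo (h : IsHyperplaneSection W i)
    (f : Fin (n + 1) → Option (Fin (2 * PY.X.dim + 1))) (v : Free f → vanishing W i)
    (p : Fin (n + 1)) : W.H PY.X →ₗ[W.K] W.H PX.X :=
  if hp : f p = none then bw W PX.X PY.X (v ⟨p, hp⟩) else fixo h f ⟨p, hp⟩

theorem Lo_none {f : Fin (n + 1) → Option (Fin (2 * PY.X.dim + 1))}
    (v : Free f → vanishing W i) {p : Fin (n + 1)} (hp : f p = none) :
    Lo h f v p = bw W PX.X PY.X (v ⟨p, hp⟩) := by
  rw [Lo, dif_pos hp]

theorem Lo_some {f : Fin (n + 1) → Option (Fin (2 * PY.X.dim + 1))}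
    (v : Free f → vanishing W i) {p : Fin (n + 1)} {κ : Fin (2 * PY.X.dim + 1)}
    (hp : f p = some κ) : Lo h f v p = proj (W.isInternal PX.X) κ ∘ₗ lft h := by
  have hp' : ¬ f p = none := by rw [hp]; simp
  rw [Lo, dif_neg hp', fixo]
  change (f p).elim 0 _ = _
  rw [hp]
  rfl

variable {Z : 𝒱.Obj}

/-- **The multilinear map of a class at the vanishing positions**, with values in the cohomology of
the power of the ambient variety. -/
noncomputable def hF (h : IsHyperplaneSection W i)
    (f : Fin (n + 1) → Option (Fin (2 * PY.X.dim + 1)))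
    (c : W.H ((nest ops n fun _ => PY).X.prod Z)) :
    MultilinearMap W.K (fun _ : Free f => vanishing W i)
      (W.H ((nest ops n fun _ => PX).X.prod Z)) :=
  ((tenML (Q := PX) (LinearMap.id : W.H Z →ₗ[W.K] W.H Z) c).domDomRestrict
    (fun p => f p = none) (fixo h f)).compLinearMap
      fun _ => bw W PX.X PY.X ∘ₗ (vanishing W i).subtype

theorem hF_apply (f : Fin (n + 1) → Option (Fin (2 * PY.X.dim + 1)))
    (c : W.H ((nest ops n fun _ => PY).X.prod Z)) (v : Free f → vanishing W i) :
    hF h f c v = ten (Lo h f v) LinearMap.id c := by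
  rw [← tenML_apply]
  rfl

/-- the classes on the factors -/
noncomputable def Eb (s : VB W i) (n : ℕ) (Z : 𝒱.Obj) (p : Fin (n + 1)) :
    Fin (2 * PY.X.dim + 1) ⊕ Fin s.N → W.H ((nest ops n fun _ => PY).X.prod Z) :=
  Sum.elim (fun _ => 1)
    fun l => W.map (fst (nest ops n fun _ => PY).X Z) (W.map (prj ops n (fun _ => PY) p) (s.b l))

/-- the ordered products of vanishing classes at the free positions -/
noncomputable def MV (s : VB W i) (Z : 𝒱.Obj)
    {f : Fin (n + 1) → Option (Fin (2 * PY.X.dim + 1))} (r : Free f → Fin s.N) :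
    W.H ((nest ops n fun _ => PY).X.prod Z) :=
  (List.ofFn fun p => Eb s n Z p (comb f r p)).prod

theorem Eb_comb (s : VB W i) {f : Fin (n + 1) → Option (Fin (2 * PY.X.dim + 1))}
    (r : Free f → Fin s.N) (p : Fin (n + 1)) : Eb s n Z p (comb f r p) =
      if hp : f p = none then W.map (fst (nest ops n fun _ => PY).X Z)
        (W.map (prj ops n (fun _ => PY) p) (s.b (r ⟨p, hp⟩))) else 1 := by
  by_cases hp : f p = none
  · rw [dif_pos hp, comb_none r ⟨p, hp⟩]
    rfl
  · obtain ⟨κ, hκ⟩ := Option.ne_none_iff_exists'.1 hp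
    rw [dif_neg hp, comb_some r hκ]
    rfl

/-- the sum over the basis -/
theorem sum_MV (s : VB W i) {f : Fin (n + 1) → Option (Fin (2 * PY.X.dim + 1))}
    (a : Fin (n + 1) → W.H PY.X) :
    ∑ r : Free f → Fin s.N, (∏ p : Free f, bil W PY.X (s.u (r p)) (a p.1)) • MV s Z r =
      (List.ofFn fun p => if f p = none then W.map (fst (nest ops n fun _ => PY).X Z)
        (W.map (prj ops n (fun _ => PY) p) (pV h (a p))) else 1).prod := by
  set Ψ : MultilinearMap W.K (fun _ : Free f => W.H ((nest ops n fun _ => PY).X.prod Z))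
      (W.H ((nest ops n fun _ => PY).X.prod Z)) :=
    (MultilinearMap.mkPiAlgebraFin W.K (n + 1) (W.H ((nest ops n fun _ => PY).X.prod Z))
      ).domDomRestrict (fun p => f p = none) (fun _ => 1) with hΨ
  have hΨa : ∀ x, Ψ x = (List.ofFn fun p => if hp : f p = none then x ⟨p, hp⟩ else 1).prod :=
    fun x => rfl
  have h1 : ∀ r : Free f → Fin s.N, MV s Z r = Ψ fun p =>
      W.map (fst (nest ops n fun _ => PY).X Z)
        (W.map (prj ops n (fun _ => PY) p.1) (s.b (r p))) := by
    intro r
    rw [hΨa, MV]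
    congr 2
    funext p
    rw [Eb_comb]
  have h2 : ∀ r : Free f → Fin s.N, (∏ p : Free f, bil W PY.X (s.u (r p)) (a p.1)) • MV s Z r =
      Ψ fun p => bil W PY.X (s.u (r p)) (a p.1) • W.map (fst (nest ops n fun _ => PY).X Z)
        (W.map (prj ops n (fun _ => PY) p.1) (s.b (r p))) := by
    intro r
    rw [h1, ← MultilinearMap.map_smul_univ]
  rw [Finset.sum_congr rfl fun r _ => h2 r, ← Ψ.map_sum (fun (p : Free f) (l : Fin s.N) =>
    bil W PY.X (s.u l) (a p.1) • W.map (fst (nest ops n fun _ => PY).X Z)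
      (W.map (prj ops n (fun _ => PY) p.1) (s.b l : W.H PY.X))), hΨa]
  congr 2
  funext p
  by_cases hp : f p = none
  · rw [dif_pos hp, if_pos hp, ← pV_expand h s, map_sum, map_sum]
    refine Finset.sum_congr rfl fun l _ => ?_
    rw [map_smul, map_smul]
  · rw [dif_neg hp, if_neg hp]

/-- the pull-back to the power of the section -/
noncomputable def res (W : WeilCohomology.{u, v} ops) {PX PY : Polarized 𝒱} (i : PY.X ⟶ PX.X)
    (n : ℕ) (Z : 𝒱.Obj) : W.H ((nest ops n fun _ => PX).X.prod Z) →ₐ[W.K]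
      W.H ((nest ops n fun _ => PY).X.prod Z) :=
  W.map (Obj.lift (fst (nest ops n fun _ => PY).X Z ≫ nmap ops i n)
    (snd (nest ops n fun _ => PY).X Z))

theorem res_ten {PW : Polarized 𝒱} {Z' : 𝒱.Obj}
    (L : Fin (n + 1) → (W.H PW.X →ₗ[W.K] W.H PX.X)) (M : W.H Z' →ₗ[W.K] W.H Z)
    (c : W.H ((nest ops n fun _ => PW).X.prod Z')) :
    res W i n Z (ten L M c) = ten (fun p => (W.map i).toLinearMap ∘ₗ L p) M c := by
  rw [res, map_eq_ten, ten_comp]
  rfl

theorem map_fst_mono {A B : 𝒱.Obj} {Y : 𝒱.Obj} {m : ℕ} (π : Fin m → (A ⟶ Y))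
    (a : Fin m → W.H Y) : W.map (fst A B) (mono π a) =
      (List.ofFn fun p => W.map (fst A B) (W.map (π p) (a p))).prod := by
  rw [mono, map_list_prod, List.map_ofFn]
  rfl

/-- **The reconstruction of a class from the multilinear maps.** -/
theorem rcn (s : VB W i) (f : Fin (n + 1) → Option (Fin (2 * PY.X.dim + 1))) (Z : 𝒱.Obj) :
    ∃ ε : ℤ, ∀ c : W.H ((nest ops n fun _ => PY).X.prod Z),
      ten (fun p => Po h (f p)) LinearMap.id c =
        (ε : W.K) • ∑ r : Free f → Fin s.N, MV s Z r * res W i n Z (hF h f c fun p => s.u (r p)) := by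
  obtain ⟨ε, hε⟩ := split_sign (K := W.K) (A := W.H ((nest ops n fun _ => PY).X.prod Z))
    (fun p => dgo PY.X (f p)) (fun p => f p = none) (List.finRange (n + 1))
    (List.nodup_finRange _)
  refine ⟨ε, fun c => ?_⟩
  have h1 : ten (Z := Z) (fun p => Po h (f p)) LinearMap.id =
      (ε : W.K) • ∑ r : Free f → Fin s.N, (LinearMap.mulLeft W.K (MV s Z r)) ∘ₗ
        (res W i n Z).toLinearMap ∘ₗ ten (Lo h f fun p => s.u (r p)) LinearMap.id := by
    refine ten_ext fun a z => ?_
    rw [ten_mono, LinearMap.smul_apply, LinearMap.sum_apply]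
    have h2 : ∀ r : Free f → Fin s.N, ((LinearMap.mulLeft W.K (MV s Z r)) ∘ₗ
        (res W i n Z).toLinearMap ∘ₗ ten (Lo h f fun p => s.u (r p)) LinearMap.id)
          (W.map (fst _ Z) (mono (prj ops n fun _ => PY) a) * W.map (snd _ Z) z) =
        ((∏ p : Free f, bil W PY.X (s.u (r p)) (a p.1)) • MV s Z r) *
          ((List.ofFn fun p => if f p = none then 1 else
            W.map (fst (nest ops n fun _ => PY).X Z) (W.map (prj ops n (fun _ => PY) p)
              (Po h (f p) (a p)))).prod * W.map (snd (nest ops n fun _ => PY).X Z) z) := by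
      intro r
      rw [LinearMap.comp_apply, LinearMap.comp_apply, LinearMap.mulLeft_apply,
        AlgHom.toLinearMap_apply, res_ten, ten_mono]
      have h3 : (fun p => ((W.map i).toLinearMap ∘ₗ Lo h f (fun p => s.u (r p)) p) (a p)) =
          fun p => (if hp : f p = none then bil W PY.X (s.u (r ⟨p, hp⟩)) (a p) else 1) •
            (if f p = none then 1 else Po h (f p) (a p)) := by
        funext p
        by_cases hp : f p = none
        · rw [dif_pos hp, if_pos hp, LinearMap.comp_apply, Lo_none h _ hp, bw_apply, map_smul,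
            AlgHom.toLinearMap_apply, map_one]
        · obtain ⟨κ, hκ⟩ := Option.ne_none_iff_exists'.1 hp
          rw [dif_neg hp, if_neg hp, LinearMap.comp_apply, Lo_some h _ hκ, one_smul, hκ,
            AlgHom.toLinearMap_apply, LinearMap.comp_apply, map_proj]
          rfl
      rw [h3]
      have h4 : mono (prj ops n fun _ => PY) (fun p =>
          (if hp : f p = none then bil W PY.X (s.u (r ⟨p, hp⟩)) (a p) else 1) •
            (if f p = none then 1 else Po h (f p) (a p))) =
          (∏ p, if hp : f p = none then bil W PY.X (s.u (r ⟨p, hp⟩)) (a p) else 1) •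
            mono (prj ops n fun _ => PY) fun p => if f p = none then 1 else Po h (f p) (a p) :=
        (monoML (W := W) (prj ops n fun _ => PY)).map_smul_univ _ _
      have h5 : (∏ p, if hp : f p = none then bil W PY.X (s.u (r ⟨p, hp⟩)) (a p) else 1) =
          ∏ p : Free f, bil W PY.X (s.u (r p)) (a p.1) := by
        rw [Finset.prod_dite, Finset.prod_const_one, mul_one]
        refine Fintype.prod_equiv (Equiv.subtypeEquivRight fun p => by simp) _ _ fun p => rfl
      rw [h4, h5, map_smul, smul_mul_assoc, mul_smul_comm, smul_mul_assoc, map_fst_mono]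
      congr 4
      congr 1
      funext p
      by_cases hp : f p = none
      · rw [if_pos hp, if_pos hp, map_one, map_one]
      · rw [if_neg hp, if_neg hp]
    rw [Finset.sum_congr rfl fun r _ => h2 r, ← Finset.sum_mul, sum_MV h s a, ← mul_assoc,
      ← smul_mul_assoc, map_fst_mono]
    have h3 := hε (fun p => W.map (fst (nest ops n fun _ => PY).X Z)
      (W.map (prj ops n (fun _ => PY) p) (Po h (f p) (a p)))) fun p q _ =>
        W.comm (W.map_mem _ (W.map_mem _ (Po_gr h _ _))) (W.map_mem _ (W.map_mem _ (Po_gr h _ _)))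
    rw [List.ofFn_eq_map, List.ofFn_eq_map, List.ofFn_eq_map, h3]
    congr 4
    refine List.map_congr_left fun p _ => ?_
    by_cases hp : f p = none
    · rw [if_pos hp, if_pos hp, hp]
      rfl
    · rw [if_neg hp, if_neg hp]
  have h2 := LinearMap.congr_fun h1 c
  rw [h2, LinearMap.smul_apply, LinearMap.sum_apply]
  congr 1
  refine Finset.sum_congr rfl fun r _ => ?_
  rw [hF_apply]
  rfl

end

end Pool.Agent.E8helper53.LP
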