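import Pool.Agent.E8helper53.LP.Rcn
import Pool.Agent.E8helper53.LP.Fft

/-!
# Equivariance and the structure of the multilinear maps of Tate classes
-/

open CategoryTheory AlgebraicGeometry Finset

set_option linter.unusedSectionVars false

universe u v w

namespace Pool.Agent.E8helper53.LP

open Pool.Agent.H914 Pool.Agent.H914.VarClass Pool.Agent.H914.VarClass.Obj
  Pool.Agent.H914.WeilCohomology Pool.Agent.H281R3.HT Pool.Agent.W552 Pool.Agent.TH125.Gal

variable {k : Type u} [Field k] {𝒱 : VarClass k} {ops : CycleOps 𝒱}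
  {W : WeilCohomology.{u, v} ops} {PX PY : Polarized 𝒱} {i : PY.X ⟶ PX.X}

/-- the twist of an action -/
noncomputable def tw {Γ : Type w} [Group Γ] {X : 𝒱.Obj} (lam : Γ →* W.Kˣ)
    (τ : Γ →* (W.H X ≃ₐ[W.K] W.H X)) : Γ →* (W.H X →ₗ[W.K] W.H X) where
  toFun g := (lam g : W.K) • (τ g).toLinearMap
  map_one' := by
    rw [map_one, map_one, Units.val_one, one_smul]
    rfl
  map_mul' g g' := by
    apply LinearMap.ext
    intro x
    rw [map_mul, map_mul, Units.val_mul]
    change ((lam g : W.K) * (lam g' : W.K)) • τ g (τ g' x) =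
      (lam g : W.K) • τ g ((lam g' : W.K) • τ g' x)
    rw [map_smul, smul_smul]

theorem tw_apply {Γ : Type w} [Group Γ] {X : 𝒱.Obj} (lam : Γ →* W.Kˣ)
    (τ : Γ →* (W.H X ≃ₐ[W.K] W.H X)) (g : Γ) (x : W.H X) :
    tw lam τ g x = (lam g : W.K) • τ g x := rfl

/-- The data of the actions: the hyperplane section, the actions, and the products. -/
structure Act (W : WeilCohomology.{u, v} ops) {Γ : Type w} [Group Γ] (χ : Γ →* W.Kˣ)
    {PX PY : Polarized 𝒱} (i : PY.X ⟶ PX.X) (n : ℕ) (Z : 𝒱.Obj)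
    (ρ : Γ →* (W.H PX.X ≃ₐ[W.K] W.H PX.X)) (ρ' : Γ →* (W.H PY.X ≃ₐ[W.K] W.H PY.X))
    (τ : Γ →* (W.H Z ≃ₐ[W.K] W.H Z))
    (υX : Γ →* (W.H ((nest ops n fun _ => PX).X.prod Z) ≃ₐ[W.K]
      W.H ((nest ops n fun _ => PX).X.prod Z)))
    (υY : Γ →* (W.H ((nest ops n fun _ => PY).X.prod Z) ≃ₐ[W.K]
      W.H ((nest ops n fun _ => PY).X.prod Z))) : Prop where
  h : IsHyperplaneSection W i
  hX : IsGeomAct χ (W.gr PX.X) PX.X.dim (W.tr PX.X) ρ
  hY : IsGeomAct χ (W.gr PY.X) PY.X.dim (W.tr PY.X) ρ'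
  hi : Intertwines (W.map i) ρ ρ'
  aX : ∀ g c, υX g c = ten (Q := PX) (fun _ => (ρ g).toLinearMap) (τ g).toLinearMap c
  aY : ∀ g c, υY g c = ten (Q := PY) (fun _ => (ρ' g).toLinearMap) (τ g).toLinearMap c

variable {Γ : Type w} [Group Γ] {χ : Γ →* W.Kˣ} {n : ℕ} {Z : 𝒱.Obj}
  {ρ : Γ →* (W.H PX.X ≃ₐ[W.K] W.H PX.X)} {ρ' : Γ →* (W.H PY.X ≃ₐ[W.K] W.H PY.X)}
  {τ : Γ →* (W.H Z ≃ₐ[W.K] W.H Z)}
  {υX : Γ →* (W.H ((nest ops n fun _ => PX).X.prod Z) ≃ₐ[W.K]
    W.H ((nest ops n fun _ => PX).X.prod Z))}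
  {υY : Γ →* (W.H ((nest ops n fun _ => PY).X.prod Z) ≃ₐ[W.K]
    W.H ((nest ops n fun _ => PY).X.prod Z))}
  (A : Act W χ i n Z ρ ρ' τ υX υY)

/-- the action on the vanishing cohomology -/
noncomputable def rhoV (A : Act W χ i n Z ρ ρ' τ υX υY) :
    Γ →* (vanishing W i →ₗ[W.K] vanishing W i) where
  toFun g := (ρ' g).toLinearMap.restrict fun _ hv => act_vanishing A.h A.hX A.hY A.hi g hv
  map_one' := by
    apply LinearMap.ext
    intro t
    apply Subtype.ext
    change ρ' 1 (t : W.H PY.X) = t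
    rw [map_one]
    rfl
  map_mul' g g' := by
    apply LinearMap.ext
    intro t
    apply Subtype.ext
    change ρ' (g * g') (t : W.H PY.X) = ρ' g (ρ' g' (t : W.H PY.X))
    rw [map_mul]
    rfl

theorem rhoV_apply (g : Γ) (t : vanishing W i) : (rhoV A g t : W.H PY.X) = ρ' g t := rfl

theorem vform_act (g : Γ) (a b : vanishing W i) :
    vform W i (rhoV A g a) (rhoV A g b) = (χ g : W.K) ^ PY.X.dim * vform W i a b := by
  rw [vform_apply, rhoV_apply, rhoV_apply, bil_apply, ← map_mul, A.hY.tr_act]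
  rfl

/-- the weights of the positions -/
noncomputable def xw (χ : Γ →* W.Kˣ) (f : Fin (n + 1) → Option (Fin (2 * PY.X.dim + 1))) (g : Γ)
    (p : Fin (n + 1)) : W.K := if f p = none then (χ g : W.K) ^ PY.X.dim else 1

theorem prod_xw (f : Fin (n + 1) → Option (Fin (2 * PY.X.dim + 1))) (g : Γ) :
    ∏ p, xw (W := W) χ f g p = ((χ g : W.K) ^ PY.X.dim) ^ Fintype.card (Free f) := by
  simp only [xw]
  rw [Finset.prod_ite, Finset.prod_const, Finset.prod_const_one, mul_one, Fintype.card_subtype]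

theorem Lo_act (f : Fin (n + 1) → Option (Fin (2 * PY.X.dim + 1)))
    (v : Free f → vanishing W i) (g : Γ) (p : Fin (n + 1)) :
    (Lo A.h f (fun j => rhoV A g (v j)) p) ∘ₗ (ρ' g).toLinearMap =
      xw (W := W) χ f g p • ((ρ g).toLinearMap ∘ₗ Lo A.h f v p) := by
  apply LinearMap.ext
  intro a
  rw [LinearMap.smul_apply, LinearMap.comp_apply, LinearMap.comp_apply,
    AlgEquiv.toLinearMap_apply, AlgEquiv.toLinearMap_apply]
  by_cases hp : f p = none
  · rw [Lo_none A.h _ hp, Lo_none A.h _ hp, bw_apply, bw_apply, xw, if_pos hp, map_smul, map_one,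
      smul_smul, rhoV_apply, bil_apply, ← map_mul, A.hY.tr_act]
    rfl
  · obtain ⟨κ, hκ⟩ := Option.ne_none_iff_exists'.1 hp
    rw [Lo_some A.h _ hκ, Lo_some A.h _ hκ, xw, if_neg hp, one_smul, LinearMap.comp_apply,
      LinearMap.comp_apply, act_lft A.h A.hX A.hY A.hi, act_proj (A.hX.gr_mem g)]

/-- **Equivariance.** -/
theorem hF_act (f : Fin (n + 1) → Option (Fin (2 * PY.X.dim + 1)))
    {c : W.H ((nest ops n fun _ => PY).X.prod Z)} {j : ℕ} {g : Γ}
    (hc : υY g c = (χ g : W.K) ^ j • c) (v : Free f → vanishing W i) :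
    (χ g : W.K) ^ j • hF A.h f c (fun p => rhoV A g (v p)) =
      ((χ g : W.K) ^ PY.X.dim) ^ Fintype.card (Free f) • υX g (hF A.h f c v) := by
  rw [hF_apply, hF_apply, A.aX, ten_comp, ← map_smul, ← hc, A.aY, ten_comp]
  have h1 : (fun p => (Lo A.h f (fun j => rhoV A g (v j)) p) ∘ₗ (ρ' g).toLinearMap) =
      fun p => xw (W := W) χ f g p • ((ρ g).toLinearMap ∘ₗ Lo A.h f v p) :=
    funext fun p => Lo_act A f v g p
  rw [h1, ← tenML_apply, MultilinearMap.map_smul_univ, prod_xw, tenML_apply]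
  rfl

/-- the twisting character -/
noncomputable def lamF (χ : Γ →* W.Kˣ) (d N j : ℕ) : Γ →* W.Kˣ := (χ ^ d) ^ N * (χ ^ j)⁻¹

theorem lamF_apply (d N j : ℕ) (g : Γ) :
    ((lamF χ d N j g : W.Kˣ) : W.K) = ((χ g : W.K) ^ d) ^ N * ((χ g : W.K) ^ j)⁻¹ := by
  simp [lamF]

theorem hF_eqv (f : Fin (n + 1) → Option (Fin (2 * PY.X.dim + 1)))
    {c : W.H ((nest ops n fun _ => PY).X.prod Z)} {j : ℕ} {Δ : Subgroup Γ} (hΔ : Δ.FiniteIndex)
    (hc : ∀ g ∈ Δ, υY g c = (χ g : W.K) ^ j • c) :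
    Eqv (rhoV A) (tw (lamF χ PY.X.dim (Fintype.card (Free f)) j) υX) (hF A.h f c) := by
  refine ⟨Δ, hΔ, fun g hg v => ?_⟩
  have h1 := hF_act A f (hc g hg) v
  have hχ : (χ g : W.K) ^ j ≠ 0 := pow_ne_zero _ (Units.ne_zero _)
  rw [tw_apply, lamF_apply, mul_comm (((χ g : W.K) ^ PY.X.dim) ^ Fintype.card (Free f)),
    mul_smul, ← h1, smul_smul, inv_mul_cancel₀ hχ, one_smul]

theorem SI_rhoV (hirr : IrredAct ρ' (vanishing W i)) : SI (rhoV A) := by
  intro Δ hΔ U hU
  have hst : ∀ g ∈ Δ, ∀ a ∈ U.map (vanishing W i).subtype,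
      ρ' g a ∈ U.map (vanishing W i).subtype := by
    rintro g hg _ ⟨x, hx, rfl⟩
    exact ⟨rhoV A g x, hU g hg x hx, rfl⟩
  rcases hirr Δ hΔ (U.map (vanishing W i).subtype) (Submodule.map_subtype_le _ _) hst with
    h1 | h1
  · left
    rw [eq_bot_iff]
    intro x hx
    have h2 : (x : W.H PY.X) ∈ U.map (vanishing W i).subtype := ⟨x, hx, rfl⟩
    rw [h1, Submodule.mem_bot] at h2
    exact (Submodule.mem_bot _).2 (Subtype.ext h2)
  · right
    rw [eq_top_iff]
    intro x _
    have h2 : (x : W.H PY.X) ∈ U.map (vanishing W i).subtype := by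
      rw [h1]
      exact x.2
    obtain ⟨y, hy, hyx⟩ := h2
    have h3 : y = x := Subtype.ext hyx
    rwa [h3] at hy

/-- **The structure of the multilinear maps of Tate classes.** -/
theorem hF_struct (s : VB W i) (hirr : IrredAct ρ' (vanishing W i)) {g : Γ}
    (hPL : PLAct (W.tr PY.X) (vanishing W i) ρ' g) (hgX : TrivAct ρ g) (hgZ : TrivAct τ g)
    (hχ : χ g = 1) (hfew : Even PY.X.dim → FewRoots W.K)
    (hn : Even PY.X.dim → n + 1 < Module.finrank W.K (vanishing W i))
    (f : Fin (n + 1) → Option (Fin (2 * PY.X.dim + 1)))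
    {c : W.H ((nest ops n fun _ => PY).X.prod Z)} {j : ℕ} {Δ : Subgroup Γ} (hΔ : Δ.FiniteIndex)
    (hc : ∀ g ∈ Δ, υY g c = (χ g : W.K) ^ j • c) :
    ∃ (m : ℕ) (κ : Type) (_ : Fintype κ) (e : κ → (Fin m × Fin 2 ≃ Free f))
      (w : κ → W.H ((nest ops n fun _ => PX).X.prod Z)),
      (∀ v, hF A.h f c v = ∑ t, pf (vform W i) (e t) v • w t) ∧
        LinearIndependent W.K fun t => pf (vform W i) (e t) := by
  obtain ⟨δ, hδ, hδ0, x, hx, hgx⟩ := hPL
  have heven : (-1 : ℤ) ^ PY.X.dim = 1 → Even PY.X.dim := by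
    intro h
    by_contra h'
    rw [(Nat.not_even_iff_odd.1 h').neg_one_pow] at h
    exact absurd h (by decide)
  refine exists_struct s.u ?_
  refine gen_mem (S := Free f) (J := Fin s.N) (s := (-1) ^ PY.X.dim)
    (μ := fun g => (χ g : W.K) ^ PY.X.dim) (B := vform W i)
    (neg_one_pow_eq_or ℤ _) (vform_symm A.h) (vform_nondeg A.h)
    (fun g => pow_ne_zero _ (Units.ne_zero _)) (vform_act A) (SI_rhoV A hirr) (g := g)
    (δ := ⟨δ, hδ⟩) (c := x) (fun h => hδ0 (congrArg Subtype.val h)) hx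
    (fun t => Subtype.ext (hgx t t.2)) (by rw [hχ, Units.val_one, one_pow])
    (σ := tw (lamF χ PY.X.dim (Fintype.card (Free f)) j) υX) ?_
    (fun h => ⟨hfew (heven h), by have := hn (heven h); omega⟩)
    (hF_eqv A f hΔ hc) s.u (fun h => ?_)
  · apply LinearMap.ext
    intro z
    rw [tw_apply, lamF_apply, hχ, A.aX]
    have h1 : (fun _ : Fin (n + 1) => (ρ g).toLinearMap) = fun _ => LinearMap.id := by
      funext _
      exact LinearMap.ext hgX
    have h2 : (τ g).toLinearMap = LinearMap.id := LinearMap.ext hgZ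
    rw [h1, h2, ten_id]
    simp
  · have h2 := hn (heven h)
    rw [Module.finrank_eq_card_basis s.u] at h2
    exact lt_of_le_of_lt (Fintype.card_subtype_le _) (by rwa [Fintype.card_fin])

theorem Lo_Dn (f : Fin (n + 1) → Option (Fin (2 * PY.X.dim + 1)))
    (h : IsHyperplaneSection W i) (v : Free f → vanishing W i) (p : Fin (n + 1)) :
    Dn (Lo h f v p) (if f p = none then PY.X.dim else 0) := by
  by_cases hp : f p = none
  · rw [if_pos hp, Lo_none h _ hp]
    have hv := vanishing_le h (v ⟨p, hp⟩).2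
    constructor
    · intro j a ha
      rw [bw_apply]
      by_cases hj : j = 0
      · subst hj
        exact Submodule.smul_mem _ _ (W.one_mem _)
      · rw [bil_eq_zero hv ha (by omega), zero_smul]
        exact Submodule.zero_mem _
    · intro j hj a ha
      rw [bw_apply, bil_eq_zero hv ha (by omega), zero_smul]
  · obtain ⟨κ, hκ⟩ := Option.ne_none_iff_exists'.1 hp
    rw [if_neg hp, Lo_some h _ hκ]
    refine Dn.of_gr fun j a ha => ?_
    rw [LinearMap.comp_apply]
    by_cases hj : j = κ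
    · rw [← hj]
      exact proj_mem _ _ _
    · rw [proj_ne _ (lft_gr h ha) hj]
      exact Submodule.zero_mem _

/-- **The coefficients are Tate classes.** -/
theorem coef_tate (f : Fin (n + 1) → Option (Fin (2 * PY.X.dim + 1)))
    {c : W.H ((nest ops n fun _ => PY).X.prod Z)} {j : ℕ} (hcj : c ∈ W.gr _ (2 * j))
    {Δ : Subgroup Γ} (hc : ∀ g ∈ Δ, υY g c = (χ g : W.K) ^ j • c) {m : ℕ} {κ : Type} [Fintype κ]
    {e : κ → (Fin m × Fin 2 ≃ Free f)} {w : κ → W.H ((nest ops n fun _ => PX).X.prod Z)}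
    (hw : ∀ v, hF A.h f c v = ∑ t, pf (vform W i) (e t) v • w t)
    (hli : LinearIndependent W.K fun t => pf (vform W i) (e t)) (t : κ) :
    w t = 0 ∨ (PY.X.dim * m ≤ j ∧ w t ∈ W.gr _ (2 * (j - PY.X.dim * m)) ∧
      ∀ g ∈ Δ, υX g (w t) = (χ g : W.K) ^ (j - PY.X.dim * m) • w t) := by
  have hcard : Fintype.card (Free f) = 2 * m := by
    have h1 := Fintype.card_congr (e t)
    rw [Fintype.card_prod, Fintype.card_fin, Fintype.card_fin] at h1
    omega
  have hDn : ∀ v, Dn (ten (Lo A.h f v) (LinearMap.id : W.H Z →ₗ[W.K] W.H Z))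
      (2 * (PY.X.dim * m)) := by
    intro v
    have h1 := ten_Dn (M := (LinearMap.id : W.H Z →ₗ[W.K] W.H Z)) (fun p => Lo_Dn f A.h v p)
      (Dn.of_gr fun _ _ ha => ha)
    have h2 : ∑ p, (if f p = none then PY.X.dim else 0) = 2 * (PY.X.dim * m) := by
      rw [Finset.sum_ite, Finset.sum_const, Finset.sum_const_zero, add_zero, smul_eq_mul,
        ← Fintype.card_subtype]
      change Fintype.card (Free f) * _ = _
      rw [hcard]
      ring
    rwa [h2] at h1
  by_cases hj : PY.X.dim * m ≤ j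
  · right
    refine ⟨hj, ?_, fun g hg => ?_⟩
    · -- the degree
      have h1 : ∀ v, hF A.h f c v ∈ W.gr _ (2 * (j - PY.X.dim * m)) := by
        intro v
        rw [hF_apply]
        refine (hDn v).1 _ _ ?_
        rw [show 2 * (j - PY.X.dim * m) + 2 * (PY.X.dim * m) = 2 * j by omega]
        exact hcj
      have h2 := coef_eq hli (w := fun t => w t - proj (W.isInternal _)
        (2 * (j - PY.X.dim * m)) (w t)) (fun v => by
          have h3 : ∑ t, pf (vform W i) (e t) v • (w t - proj (W.isInternal _)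
              (2 * (j - PY.X.dim * m)) (w t)) = hF A.h f c v - proj (W.isInternal _)
              (2 * (j - PY.X.dim * m)) (hF A.h f c v) := by
            rw [hw v, map_sum, ← Finset.sum_sub_distrib]
            refine Finset.sum_congr rfl fun t _ => ?_
            rw [map_smul, smul_sub]
          rw [h3, proj_same _ (h1 v), sub_self]) t
      rw [sub_eq_zero.1 h2]
      exact proj_mem _ _ _
    · -- the action
      have h2 := coef_eq hli (w := fun t => ((χ g : W.K) ^ PY.X.dim) ^ (2 * m) • υX g (w t) -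
        ((χ g : W.K) ^ j * ((χ g : W.K) ^ PY.X.dim) ^ m) • w t) (fun v => by
          have h3 : ∑ t, pf (vform W i) (e t) v • (((χ g : W.K) ^ PY.X.dim) ^ (2 * m) •
              υX g (w t) - ((χ g : W.K) ^ j * ((χ g : W.K) ^ PY.X.dim) ^ m) • w t) =
              ((χ g : W.K) ^ PY.X.dim) ^ (2 * m) • υX g (hF A.h f c v) -
              (χ g : W.K) ^ j • hF A.h f c (fun p => rhoV A g (v p)) := by
            rw [hw v, hw (fun p => rhoV A g (v p)), map_sum, Finset.smul_sum, Finset.smul_sum,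
              ← Finset.sum_sub_distrib]
            refine Finset.sum_congr rfl fun t _ => ?_
            rw [pf_smul (vform W i) (e t) (vform_act A g) v, map_smul, smul_sub, smul_smul,
              smul_smul, smul_smul, smul_smul]
            congr 1
            · congr 1
              ring
            · congr 1
              ring
          rw [h3, hF_act A f (hc g hg) v, hcard, sub_self]) t
      have hχ : (χ g : W.K) ≠ 0 := Units.ne_zero _
      have h3 := sub_eq_zero.1 h2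
      have h4 : (χ g : W.K) ^ j * ((χ g : W.K) ^ PY.X.dim) ^ m =
          ((χ g : W.K) ^ PY.X.dim) ^ (2 * m) * (χ g : W.K) ^ (j - PY.X.dim * m) := by
        obtain ⟨l, hl⟩ := Nat.exists_eq_add_of_le hj
        rw [hl, Nat.add_sub_cancel_left, pow_add, pow_mul, two_mul, pow_add]
        ring
      rw [h4, mul_smul] at h3
      exact smul_right_injective _ (pow_ne_zero _ (pow_ne_zero _ hχ)) h3
  · left
    refine coef_eq hli (fun v => ?_) t
    rw [← hw v, hF_apply]
    exact (hDn v).2 _ (by omega) _ hcj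

end Pool.Agent.E8helper53.LP
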